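import Pool.Agent.T6.H63.SK.Main

/-!
The lower bound on explicit sizes.
-/

set_option autoImplicit false

namespace Pool.Agent.T6.H63.SK

open Finset Pool.Agent.T6.H63.LD

open Classical in
/-- The lower bound on a graph with `15 N / δ` edges. -/
theorem lower_graph2 {δ : ℝ} (hδ : 0 < δ) (hδ1 : δ ≤ 1 / 4) (N : ℕ) (hN : 1 / δ ^ 13 ≤ (N : ℝ)) :
    ∃ H : Finset (Fin N × Fin N), (H.card : ℝ) ≤ 15 * N / δ ∧
      ∀ (q : ℕ) [Fact q.Prime], 8 / δ ^ 3 ≤ (q : ℝ) → ∀ (T : ℕ) (Ω : Type) [Fintype Ω]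
      (w : Ω → ℝ), (∀ o, 0 ≤ w o) → ∑ o, w o = 1 → ∀ (a : Ω → Fin T → H → ZMod q)
      (acc : Ω → (Fin T → ZMod q) → Prop),
      (∀ c : H → ZMod q, (∃ x y : Fin N → ZMod q, ∀ e : H, (x e.1.1 + c e) ^ 2 = y e.1.2) →
        2 / 3 ≤ ∑ o, w o * if acc o (fun j => ∑ e, a o j e * c e) then 1 else 0) →
      (∀ c : H → ZMod q, (∀ x y : Fin N → ZMod q,
        ((univ.filter fun e : H => (x e.1.1 + c e) ^ 2 = y e.1.2).card : ℝ) ≤
          δ * Fintype.card H) →
        ∑ o, w o * (if acc o (fun j => ∑ e, a o j e * c e) then 1 else 0) ≤ 1 / 3) →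
      (N : ℝ) ^ (1 / (37 * Real.log (1 / δ) * Real.log q)) ≤ 6 * Real.log q * (T : ℝ) ^ 2 := by
  set D := ⌈14 / δ⌉₊ with hD
  set L := Real.log (1 / δ) with hL
  have hδinv : 4 ≤ 1 / δ := by
    rw [le_div_iff₀ hδ]
    linarith
  have hlog2 := Real.log_two_gt_d9
  have hlog2' := Real.log_two_lt_d9
  have hlog4 : 1.386 ≤ Real.log 4 := by
    have h1 : Real.log 4 = 2 * Real.log 2 := by
      rw [show (4 : ℝ) = 2 ^ 2 by norm_num, Real.log_pow]
      norm_num
    rw [h1]
    linarith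
  have hL4 : 1.386 ≤ L := hlog4.trans (Real.log_le_log (by norm_num) hδinv)
  have hL0 : 0 < L := by linarith
  have hexpL : Real.exp L = 1 / δ := Real.exp_log (by positivity)
  have hD14 : 14 / δ ≤ D := Nat.le_ceil _
  have hD15 : (D : ℝ) ≤ 14 / δ + 1 := (Nat.ceil_lt_add_one (by positivity)).le
  have hD1 : (D : ℝ) + 1 ≤ (1 / δ) ^ 3 := by
    have h1 : (14 : ℝ) / δ = 14 * (1 / δ) := by ring
    have h2 : (16 : ℝ) * (1 / δ) ≤ (1 / δ) ^ 3 := by
      have h3 : (4 : ℝ) ^ 2 ≤ (1 / δ) ^ 2 := by gcongr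
      calc (16 : ℝ) * (1 / δ) = 4 ^ 2 * (1 / δ) := by norm_num
        _ ≤ (1 / δ) ^ 2 * (1 / δ) := by gcongr
        _ = _ := by ring
    linarith
  have hNpos : (4 : ℝ) ^ 13 ≤ N := by
    refine le_trans ?_ hN
    rw [← one_div_pow]
    gcongr
  have hN0 : (0 : ℝ) < N := lt_of_lt_of_le (by norm_num) hNpos
  set r := ⌊Real.log (N / 2) / (6 * L)⌋₊ with hr
  have hlogN : 0 ≤ Real.log (N / 2) := Real.log_nonneg (by
    rw [le_div_iff₀ (by norm_num)]
    linarith)
  have hr2 : 2 ≤ r := by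
    rw [hr, Nat.le_floor_iff (by positivity), le_div_iff₀ (by positivity)]
    rw [Real.le_log_iff_exp_le (by positivity)]
    have h1 : Real.exp (((2 : ℕ) : ℝ) * (6 * L)) = (1 / δ) ^ 12 := by
      rw [← hexpL, ← Real.exp_nat_mul]
      congr 1
      push_cast
      ring
    rw [h1, le_div_iff₀ (by norm_num)]
    calc (1 / δ) ^ 12 * 2 ≤ (1 / δ) ^ 12 * (1 / δ) := by
          gcongr
          linarith
      _ = 1 / δ ^ 13 := by
          rw [← pow_succ, one_div_pow]
      _ ≤ N := hN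
  have hrle : (r : ℝ) ≤ Real.log (N / 2) / (6 * L) := Nat.floor_le (by positivity)
  have hrge : Real.log (N / 2) / (6 * L) - 1 ≤ r := by
    have := Nat.lt_floor_add_one (Real.log (N / 2) / (6 * L))
    linarith
  have hND : 2 * (D + 1) ^ (2 * r) ≤ N := by
    have h1 : ((D : ℝ) + 1) ^ (2 * r) ≤ N / 2 := by
      calc ((D : ℝ) + 1) ^ (2 * r) ≤ ((1 / δ) ^ 3) ^ (2 * r) := by gcongr
        _ = Real.exp (r * (6 * L)) := by
            rw [← pow_mul, ← hexpL, ← Real.exp_nat_mul]
            congr 1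
            push_cast
            ring
        _ ≤ Real.exp (Real.log (N / 2)) := by
            apply Real.exp_le_exp.2
            rwa [le_div_iff₀ (by positivity)] at hrle
        _ = N / 2 := Real.exp_log (by positivity)
    have h2 : (2 : ℝ) * ((D : ℝ) + 1) ^ (2 * r) ≤ N := by linarith
    exact_mod_cast h2
  obtain ⟨H, hH1, hH2, hH3⟩ := exists_graph N D r (by omega) hND
  refine ⟨H, ?_, ?_⟩
  · have h1 : (H.card : ℝ) ≤ N * D := by exact_mod_cast hH2
    calc (H.card : ℝ) ≤ N * D := h1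
      _ ≤ N * (14 / δ + 1) := by gcongr
      _ ≤ N * (15 / δ) := by
          gcongr
          have : (15 : ℝ) / δ = 14 / δ + 1 / δ := by ring
          linarith
      _ = _ := by ring
  intro q _ hq T Ω _ w hw hw1 a acc hyes hno
  have hgr : gr (fun e : H => e.1.1) (fun e : H => e.1.2) Set.univ = grH H := by
    ext x y
    constructor
    · rintro ⟨e, -, he⟩
      exact ⟨e.1, e.2, he⟩
    · rintro ⟨e, he, he'⟩
      exact ⟨⟨e, he⟩, Set.mem_univ _, he'⟩
  set t := (r - 2) / 2 with ht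
  have hg : ((4 * t + 4 : ℕ) : ℕ∞) <
      (gr (fun e : H => e.1.1) (fun e : H => e.1.2) Set.univ).egirth := by
    rw [hgr]
    refine lt_of_le_of_lt ?_ hH3
    have : 4 * t + 4 ≤ 2 * r := by omega
    exact_mod_cast this
  have htr : (r : ℝ) ≤ 2 * t + 3 := by
    have : r ≤ 2 * t + 3 := by omega
    exact_mod_cast this
  have hcardH : Fintype.card H = H.card := Fintype.card_coe H
  have hm : 3 * ((Fintype.card (Fin N) : ℝ) + Fintype.card (Fin N) + 1) ≤
      δ * Fintype.card H := by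
    rw [hcardH, Fintype.card_fin]
    have h1 : (N : ℝ) * D ≤ 2 * H.card := by exact_mod_cast hH1
    have h2 : (N : ℝ) * (14 / δ) ≤ 2 * H.card := le_trans (by gcongr) h1
    have h3 : (N : ℝ) * (14 / δ) * δ ≤ 2 * H.card * δ := by gcongr
    have h4 : (N : ℝ) * (14 / δ) * δ = 14 * N := by
      field_simp
    rw [h4] at h3
    nlinarith
  have hmain := lower2 (s := fun e : H => e.1.1) (d := fun e : H => e.1.2)
    (fun e e' h1 h2 => Subtype.ext (Prod.ext h1 h2)) t hg hδ hδ1 hm hq T w hw hw1 a acc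
    (by
      intro c hc
      exact hyes c hc) (by
      intro c hc
      refine hno c ?_
      intro x y
      convert hc x y)
  have hq512 : (512 : ℝ) ≤ q := by
    refine le_trans ?_ hq
    rw [le_div_iff₀ (by positivity)]
    have : δ ^ 3 ≤ (1 / 4) ^ 3 := by gcongr
    linarith
  set lq := Real.log q with hlq
  have hlq9 : 9 * Real.log 2 ≤ lq := by
    have h1 : Real.log 512 ≤ lq := Real.log_le_log (by norm_num) hq512
    have h2 : Real.log 512 = 9 * Real.log 2 := by
      rw [show (512 : ℝ) = 2 ^ 9 by norm_num, Real.log_pow]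
      norm_num
    linarith
  have hlq0 : 0 < lq := by linarith
  set l := Real.logb 2 q with hl
  have hll : l * Real.log 2 = lq := by
    rw [hl, Real.logb, div_mul_cancel₀ _ (by linarith)]
  have hl9 : 9 ≤ l := by
    have h1 : 9 * Real.log 2 ≤ l * Real.log 2 := by rw [hll]; exact hlq9
    exact le_of_mul_le_mul_right h1 (by linarith)
  have hpowN : (N : ℝ) ^ (1 / (37 * L * lq)) ≤ 1.12 * (2 : ℝ) ^ (t / (l + 4)) := by
    have h1 : (N : ℝ) ^ (1 / (37 * L * lq)) = Real.exp (Real.log N * (1 / (37 * L * lq))) := by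
      rw [Real.rpow_def_of_pos hN0]
    have h1' : (2 : ℝ) ^ (t / (l + 4)) = Real.exp (Real.log 2 * (t / (l + 4))) := by
      rw [Real.rpow_def_of_pos (by norm_num)]
    rw [h1, h1']
    have h2 : Real.log N = Real.log (N / 2) + Real.log 2 := by
      rw [← Real.log_mul (by positivity) (by norm_num)]
      congr 1
      ring
    set A := Real.log N / (12 * L) with hA
    have hA0 : 0 ≤ A := by
      apply div_nonneg _ (by positivity)
      rw [h2]
      linarith
    have htA : A - 2.05 ≤ t := by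
      have h3 : A = (Real.log (N / 2) / (6 * L)) / 2 + Real.log 2 / (12 * L) := by
        rw [hA, h2]
        field_simp
        ring
      have h4 : Real.log 2 / (12 * L) ≤ 0.05 := by
        rw [div_le_iff₀ (by positivity)]
        nlinarith
      linarith
    have h5 : Real.log N * (1 / (37 * L * lq)) = A * (12 / (37 * lq)) := by
      rw [hA]
      field_simp
    have h6 : (12 : ℝ) / (37 * lq) ≤ Real.log 2 / (l + 4) := by
      rw [div_le_div_iff₀ (by positivity) (by linarith), ← hll]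
      have h7 : (0.4804 : ℝ) ≤ Real.log 2 * Real.log 2 := by nlinarith
      nlinarith
    have h7 : Real.log N * (1 / (37 * L * lq)) ≤ 0.11 + Real.log 2 * (t / (l + 4)) := by
      rw [h5]
      have h8 : Real.log 2 * (t / (l + 4)) = Real.log 2 / (l + 4) * t := by ring
      have h9 : 0 ≤ Real.log 2 / (l + 4) := by
        apply div_nonneg <;> linarith
      have h10 : Real.log 2 / (l + 4) * 2.05 ≤ 0.11 := by
        rw [div_mul_eq_mul_div, div_le_iff₀ (by linarith)]
        nlinarith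
      rw [h8]
      calc A * (12 / (37 * lq)) ≤ A * (Real.log 2 / (l + 4)) := by gcongr
        _ = Real.log 2 / (l + 4) * 2.05 + Real.log 2 / (l + 4) * (A - 2.05) := by ring
        _ ≤ 0.11 + Real.log 2 / (l + 4) * t := by gcongr
    calc Real.exp (Real.log N * (1 / (37 * L * lq)))
        ≤ Real.exp (0.11 + Real.log 2 * (t / (l + 4))) := Real.exp_le_exp.2 h7
      _ = Real.exp 0.11 * Real.exp (Real.log 2 * (t / (l + 4))) := Real.exp_add _ _
      _ ≤ 1.12 * Real.exp (Real.log 2 * (t / (l + 4))) := by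
          gcongr
          have := Real.exp_bound' (x := 0.11) (by norm_num) (by norm_num) (n := 3) (by norm_num)
          refine this.trans ?_
          simp [Finset.sum_range_succ, Nat.factorial]
          norm_num
  have hfin : 1.12 * (2 * (l + 6)) ≤ 6 * lq := by
    rw [← hll]
    nlinarith
  calc (N : ℝ) ^ (1 / (37 * L * lq)) ≤ 1.12 * (2 : ℝ) ^ (t / (l + 4)) := hpowN
    _ ≤ 1.12 * (2 * (l + 6) * (T : ℝ) ^ 2) := by gcongr
    _ = 1.12 * (2 * (l + 6)) * (T : ℝ) ^ 2 := by ring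
    _ ≤ 6 * lq * (T : ℝ) ^ 2 := by gcongr

end Pool.Agent.T6.H63.SK
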