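import Pool.Agent.T6.H63.SK.No
import Pool.Agent.T6.H63.LD.Graph

/-!
The lower bound for linear sketches of square games.
-/

set_option autoImplicit false

namespace Pool.Agent.T6.H63.SK

open Finset Pool.Agent.T6.H63.LD

variable {U V E : Type} [Fintype U] [Fintype V] [Fintype E] [DecidableEq E] {s : E → U}
  {d : E → V} {q : ℕ} [Fact q.Prime]

open Classical in
/-- the counting form of the lower bound -/
theorem core2 (hinj : ∀ e e', s e = s e' → d e = d e' → e = e') (t : ℕ)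
    (hg : ((2 * (2 * t + 2) : ℕ) : ℕ∞) < (gr s d Set.univ).egirth) {δ : ℝ} (hδ : 0 < δ)
    (hδ1 : δ ≤ 1 / 4)
    (hm : 3 * ((Fintype.card U : ℝ) + Fintype.card V + 1) ≤ δ * Fintype.card E)
    (hq : 8 / δ ^ 3 ≤ q) (T : ℕ) {Ω : Type} [Fintype Ω] (w : Ω → ℝ) (hw : ∀ o, 0 ≤ w o)
    (hw1 : ∑ o, w o = 1) (a : Ω → Fin T → E → ZMod q) (acc : Ω → (Fin T → ZMod q) → Prop)
    (hyes : ∀ c : E → ZMod q, (∃ (x : U → ZMod q) (y : V → ZMod q),
        ∀ e, (x (s e) + c e) ^ 2 = y (d e)) →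
        2 / 3 ≤ ∑ o, w o * if acc o (fun j => ∑ e, a o j e * c e) then 1 else 0)
    (hno : ∀ c : E → ZMod q, (∀ (x : U → ZMod q) (y : V → ZMod q),
        ((univ.filter fun e => (x (s e) + c e) ^ 2 = y (d e)).card : ℝ) ≤ δ * Fintype.card E) →
        ∑ o, w o * (if acc o (fun j => ∑ e, a o j e * c e) then 1 else 0) ≤ 1 / 3)
    (W : ℕ) (hW : (q : ℝ) ^ T / 2 ^ W ≤ 1 / 32) :
    2 ^ t < 16 * ((q : ℝ) ^ (Nat.log 2 (T * W) + 1) * ((T * W : ℕ) : ℝ) ^ 2) := by
  by_contra hcon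
  push Not at hcon
  have hq0 : (0 : ℝ) < q := by exact_mod_cast (Fact.out : q.Prime).pos
  have hq2 : q ≠ 2 := by
    rintro rfl
    have h1 : (512 : ℝ) ≤ 8 / δ ^ 3 := by
      rw [le_div_iff₀ (by positivity)]
      have : δ ^ 3 ≤ (1 / 4) ^ 3 := by gcongr
      linarith
    have h2 := h1.trans hq
    norm_num at h2
  set n := Fintype.card E with hn
  have hCcard : (Fintype.card (E → ZMod q) : ℝ) = (q : ℝ) ^ n := by
    rw [Fintype.card_fun, ZMod.card]
    push_cast
    rfl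
  set C : ℝ := (q : ℝ) ^ n with hC
  have hC0 : 0 < C := by positivity
  let P := (U → ZMod q) × (V → ZMod q)
  have hP0 : (0 : ℝ) < Fintype.card P := by exact_mod_cast Fintype.card_pos_iff.2 ⟨0⟩
  have hIcard : (Fintype.card (E → Bool) : ℝ) = 2 ^ n := by
    rw [Fintype.card_fun, Fintype.card_bool]
    push_cast
    rfl
  have hI0 : (0 : ℝ) < Fintype.card (E → Bool) := by
    rw [hIcard]
    positivity
  let f : Ω → (E → ZMod q) → ℝ := fun o c => if acc o (fun j => ∑ e, a o j e * c e) then 1 else 0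
  let EY : Ω → ℝ := fun o => (∑ ε : E → Bool, ∑ p : P, f o (Phi2 s d q ε p)) /
    (Fintype.card (E → Bool) * Fintype.card P)
  let EN : Ω → ℝ := fun o => (∑ c : E → ZMod q, f o c) / Fintype.card (E → ZMod q)
  have hdiff : ∀ o, EY o - EN o ≤ 0.314 := by
    intro o
    have h1 := second_moment (Phi2 s d q) (a o) (fun v => if acc o v then (1 : ℝ) else 0)
      (fun v => by split_ifs <;> norm_num) (fun v => by split_ifs <;> norm_num)
    have h2 : (∑ ε : E → Bool, ∑ ε' : E → Bool,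
        (Nat.card (wit (Phi2 s d q) (a o) ε ε') : ℝ)) / (Fintype.card (E → Bool) : ℝ) ^ 2 ≤
        16 / 15 + 1 / 32 := by
      rw [div_le_iff₀ (by positivity), hIcard]
      calc ∑ ε : E → Bool, ∑ ε' : E → Bool, (Nat.card (wit (Phi2 s d q) (a o) ε ε') : ℝ)
          ≤ ∑ _ε : E → Bool, (2 : ℝ) ^ n * (16 / 15 + (q : ℝ) ^ T / 2 ^ W) :=
            sum_le_sum fun ε _ => wit_sum hinj t hg hq2 T W hcon (a o) ε
        _ = 2 ^ n * (2 ^ n * (16 / 15 + (q : ℝ) ^ T / 2 ^ W)) := by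
            rw [sum_const, card_univ, nsmul_eq_mul, hIcard]
        _ ≤ 2 ^ n * (2 ^ n * (16 / 15 + 1 / 32)) := by gcongr
        _ = _ := by ring
    have h3 : (EY o - EN o) ^ 2 ≤ 0.314 ^ 2 := by
      refine (h1.trans (sub_le_sub_right h2 1)).trans ?_
      norm_num
    exact (abs_le_of_sq_le_sq' h3 (by norm_num)).2
  -- the planted distribution
  have hY : 2 / 3 ≤ ∑ o, w o * EY o := by
    have h1 : ∑ o, w o * EY o = (∑ ε : E → Bool, ∑ p : P, ∑ o, w o * f o (Phi2 s d q ε p)) /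
        (Fintype.card (E → Bool) * Fintype.card P) := by
      simp only [EY, mul_div_assoc', mul_sum]
      rw [← sum_div]
      congr 1
      rw [sum_comm]
      refine sum_congr rfl fun ε _ => ?_
      rw [sum_comm]
    rw [h1, le_div_iff₀ (by positivity)]
    calc 2 / 3 * ((Fintype.card (E → Bool) : ℝ) * Fintype.card P)
        = ∑ _ε : E → Bool, ∑ _p : P, (2 / 3 : ℝ) := by
          rw [sum_const, sum_const, card_univ, card_univ, nsmul_eq_mul, nsmul_eq_mul]
          ring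
      _ ≤ _ := by
        refine sum_le_sum fun ε _ => sum_le_sum fun p _ => ?_
        refine hyes _ ⟨p.1, fun v => p.2 v ^ 2, fun e => ?_⟩
        rw [Phi2_apply]
        have := sg_sq (q := q) (ε e)
        linear_combination (p.2 (d e)) ^ 2 * this
  have hN : ∑ o, w o * EN o ≤ 1 / 3 + 1 / 64 := by
    have h1 : ∑ o, w o * EN o = (∑ c : E → ZMod q, ∑ o, w o * f o c) / C := by
      simp only [EN, mul_div_assoc', mul_sum, hCcard]
      rw [← sum_div]
      congr 1
      rw [sum_comm]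
    rw [h1, div_le_iff₀ hC0]
    set S := univ.filter fun c : E → ZMod q => ∃ (x : U → ZMod q) (y : V → ZMod q),
        δ * Fintype.card E <
          ((univ.filter fun e => (x (s e) + c e) ^ 2 = y (d e)).card : ℝ) with hS
    have h2 : (S.card : ℝ) ≤ C * (1 / 64) := no_card2 hδ hδ1 hm hq
    have h3 : ∀ c, ∑ o, w o * f o c ≤ 1 / 3 + if c ∈ S then 1 else 0 := by
      intro c
      by_cases hc : c ∈ S
      · rw [if_pos hc]
        have : ∑ o, w o * f o c ≤ 1 := by
          refine le_trans (sum_le_sum fun o _ => ?_) hw1.le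
          have := hw o
          simp only [f]
          split_ifs <;> simp [this]
        linarith
      · rw [if_neg hc, add_zero]
        refine hno c fun x y => ?_
        by_contra h
        push Not at h
        apply hc
        rw [hS, mem_filter]
        exact ⟨mem_univ _, x, y, h⟩
    calc ∑ c : E → ZMod q, ∑ o, w o * f o c
        ≤ ∑ c : E → ZMod q, (1 / 3 + if c ∈ S then (1 : ℝ) else 0) := sum_le_sum fun c _ => h3 c
      _ = C * (1 / 3) + S.card := by
          rw [sum_add_distrib, sum_const, card_univ, nsmul_eq_mul, hCcard, Finset.sum_boole]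
          congr 2
          simp
      _ ≤ _ := by linarith
  have hfin : ∑ o, w o * EY o ≤ ∑ o, w o * EN o + 0.314 := by
    calc ∑ o, w o * EY o ≤ ∑ o, (w o * EN o + w o * 0.314) := by
          refine sum_le_sum fun o _ => ?_
          rw [← mul_add]
          exact mul_le_mul_of_nonneg_left (by linarith [hdiff o]) (hw o)
      _ = _ := by rw [sum_add_distrib, ← sum_mul, hw1, one_mul]
  linarith

open Classical in
/-- the lower bound -/
theorem lower2 (hinj : ∀ e e', s e = s e' → d e = d e' → e = e') (t : ℕ)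
    (hg : ((4 * t + 4 : ℕ) : ℕ∞) < (gr s d Set.univ).egirth) {δ : ℝ} (hδ : 0 < δ)
    (hδ1 : δ ≤ 1 / 4)
    (hm : 3 * ((Fintype.card U : ℝ) + Fintype.card V + 1) ≤ δ * Fintype.card E)
    (hq : 8 / δ ^ 3 ≤ q) (T : ℕ) {Ω : Type} [Fintype Ω] (w : Ω → ℝ) (hw : ∀ o, 0 ≤ w o)
    (hw1 : ∑ o, w o = 1) (a : Ω → Fin T → E → ZMod q) (acc : Ω → (Fin T → ZMod q) → Prop)
    (hyes : ∀ c : E → ZMod q, (∃ (x : U → ZMod q) (y : V → ZMod q),
        ∀ e, (x (s e) + c e) ^ 2 = y (d e)) →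
        2 / 3 ≤ ∑ o, w o * if acc o (fun j => ∑ e, a o j e * c e) then 1 else 0)
    (hno : ∀ c : E → ZMod q, (∀ (x : U → ZMod q) (y : V → ZMod q),
        ((univ.filter fun e => (x (s e) + c e) ^ 2 = y (d e)).card : ℝ) ≤ δ * Fintype.card E) →
        ∑ o, w o * (if acc o (fun j => ∑ e, a o j e * c e) then 1 else 0) ≤ 1 / 3) :
    (2 : ℝ) ^ (t / (Real.logb 2 q + 4)) ≤ 2 * (Real.logb 2 q + 6) * (T : ℝ) ^ 2 := by
  have hq0 : (0 : ℝ) < q := by exact_mod_cast (Fact.out : q.Prime).pos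
  have hq1 : (1 : ℝ) ≤ q := by exact_mod_cast (Fact.out : q.Prime).one_lt.le
  set l := Real.logb 2 q with hl
  have hl0 : 0 ≤ l := Real.logb_nonneg (by norm_num) hq1
  have hql : (q : ℝ) = 2 ^ l := (Real.rpow_logb (by norm_num) (by norm_num) hq0).symm
  set W := ⌈(T : ℝ) * l⌉₊ + 5 with hWdef
  have hW : (q : ℝ) ^ T / 2 ^ W ≤ 1 / 32 := by
    rw [div_le_iff₀ (by positivity)]
    have h1 : (q : ℝ) ^ T = (2 : ℝ) ^ (T * l) := by
      rw [mul_comm, Real.rpow_mul (by norm_num), ← hql, Real.rpow_natCast]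
    have h2 : (2 : ℝ) ^ ((T : ℝ) * l) ≤ 2 ^ ⌈(T : ℝ) * l⌉₊ := by
      rw [← Real.rpow_natCast]
      exact Real.rpow_le_rpow_of_exponent_le (by norm_num) (Nat.le_ceil _)
    rw [h1, hWdef, pow_add]
    linarith
  have hcore := core2 hinj t (by
    have : 2 * (2 * t + 2) = 4 * t + 4 := by ring
    rw [this]
    exact hg) hδ hδ1 hm hq T w hw hw1 a acc hyes hno W hW
  have hT : 1 ≤ T := by
    rcases Nat.eq_zero_or_pos T with h0 | h0
    · rw [h0] at hcore
      simp only [zero_mul, Nat.cast_zero] at hcore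
      norm_num at hcore
      have : (0 : ℝ) < 2 ^ t := by positivity
      linarith
    · exact h0
  have hTR : (1 : ℝ) ≤ T := by exact_mod_cast hT
  have hW1 : 1 ≤ W := by omega
  have hTW : 1 ≤ T * W := Nat.mul_pos hT hW1
  set m : ℝ := ((T * W : ℕ) : ℝ) with hmdef
  have hm1 : 1 ≤ m := by
    rw [hmdef]
    exact_mod_cast hTW
  have hm0 : 0 < m := by linarith
  have hWle : (W : ℝ) ≤ T * (l + 6) := by
    rw [hWdef]
    push_cast
    have h1 : (⌈(T : ℝ) * l⌉₊ : ℝ) < T * l + 1 := Nat.ceil_lt_add_one (by positivity)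
    nlinarith
  have hmle : m ≤ (l + 6) * (T : ℝ) ^ 2 := by
    rw [hmdef]
    push_cast
    calc (T : ℝ) * W ≤ T * (T * (l + 6)) := by gcongr
      _ = _ := by ring
  have hlogm : (q : ℝ) ^ Nat.log 2 (T * W) ≤ m ^ l := by
    have h1 : ((2 : ℝ) ^ Nat.log 2 (T * W)) ≤ m := by
      rw [hmdef]
      exact_mod_cast Nat.pow_log_le_self 2 (by omega)
    calc (q : ℝ) ^ Nat.log 2 (T * W) = ((2 : ℝ) ^ Nat.log 2 (T * W)) ^ l := by
          rw [hql, ← Real.rpow_natCast, ← Real.rpow_natCast, ← Real.rpow_mul (by norm_num),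
            ← Real.rpow_mul (by norm_num), mul_comm]
      _ ≤ m ^ l := by gcongr
  have hkey : (2 : ℝ) ^ t ≤ (2 * m) ^ (l + 4) := by
    calc (2 : ℝ) ^ t ≤ 16 * ((q : ℝ) ^ (Nat.log 2 (T * W) + 1) * m ^ 2) := hcore.le
      _ = 16 * q * ((q : ℝ) ^ Nat.log 2 (T * W) * m ^ 2) := by
          rw [pow_succ]
          ring
      _ ≤ 16 * q * (m ^ l * m ^ 2) := by gcongr
      _ = 2 ^ (l + 4) * m ^ (l + 2) := by
          rw [Real.rpow_add (by norm_num), Real.rpow_add hm0, ← hql, Real.rpow_ofNat,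
            Real.rpow_ofNat]
          ring
      _ ≤ 2 ^ (l + 4) * m ^ (l + 4) := by
          have := Real.rpow_le_rpow_of_exponent_le hm1 (show l + 2 ≤ l + 4 by linarith)
          gcongr
      _ = _ := (Real.mul_rpow (by norm_num) hm0.le).symm
  have hl4 : 0 < l + 4 := by linarith
  calc (2 : ℝ) ^ (t / (l + 4)) = ((2 : ℝ) ^ t) ^ (1 / (l + 4)) := by
        rw [← Real.rpow_natCast, ← Real.rpow_mul (by norm_num)]
        congr 1
        ring
    _ ≤ ((2 * m) ^ (l + 4)) ^ (1 / (l + 4)) := by gcongr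
    _ = 2 * m := by
        rw [← Real.rpow_mul (by positivity), mul_one_div, div_self hl4.ne', Real.rpow_one]
    _ ≤ 2 * ((l + 6) * (T : ℝ) ^ 2) := by gcongr
    _ = _ := by ring

end Pool.Agent.T6.H63.SK
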