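import Pool.Agent.T6.H63.LD.Flow

/-!
Chains of edges in a bipartite graph of large girth.
-/

set_option autoImplicit false

namespace Pool.Agent.T6.H63.SK

open Finset Pool.Agent.T6.H63.LD

/-- A non-backtracking walk of length less than the girth is a path. -/
theorem isPath_of_nb {X : Type} {G : SimpleGraph X} {L : ℕ} (hg : (L : ℕ∞) < G.egirth)
    {x y : X} (p : G.Walk x y) (hl : p.length ≤ L) (hc : p.edges.IsChain (· ≠ ·)) :
    p.IsPath := by
  classical
  induction p with
  | nil => exact SimpleGraph.Walk.IsPath.nil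
  | @cons x y z h p ih =>
    rw [SimpleGraph.Walk.length_cons] at hl
    rw [SimpleGraph.Walk.edges_cons] at hc
    have hp := ih (by omega) hc.tail
    rw [SimpleGraph.Walk.cons_isPath_iff]
    refine ⟨hp, fun hx => ?_⟩
    set p' := p.takeUntil x hx with hp'
    have hp'p : p'.IsPath := hp.takeUntil hx
    have hlen : p'.length ≤ p.length := p.length_takeUntil_le_length hx
    have hnot : s(x, y) ∈ p'.edges := by
      by_contra hnot
      have hcyc : (SimpleGraph.Walk.cons h p').IsCycle := by
        rw [SimpleGraph.Walk.cons_isCycle_iff]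
        exact ⟨hp'p, hnot⟩
      have h1 := hg.trans_le (SimpleGraph.egirth_le_length hcyc)
      rw [SimpleGraph.Walk.length_cons] at h1
      have h2 : L < p'.length + 1 := by exact_mod_cast h1
      omega
    have hpe : p.edges = p'.edges ++ (p.dropUntil x hx).edges := by
      rw [← SimpleGraph.Walk.edges_append, hp', SimpleGraph.Walk.take_spec]
    clear_value p'
    cases p' with
    | nil => simp at hnot
    | @cons _ w _ h' p'' =>
      rw [SimpleGraph.Walk.edges_cons, List.mem_cons] at hnot
      rw [SimpleGraph.Walk.edges_cons, List.cons_append] at hpe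
      rw [hpe] at hc
      rw [SimpleGraph.Walk.cons_isPath_iff] at hp'p
      rcases hnot with h1 | h1
      · exact (List.isChain_cons_cons.1 hc).1 h1
      · exact hp'p.2 (p''.snd_mem_support_of_mem_edges h1)

section chain

variable {E : Type}

/-- `Ch R b e l`: consecutive elements of `e :: l` are related by `R b`, `R !b`, `R b`, ... -/
def Ch (R : Bool → E → E → Prop) : Bool → E → List E → Prop
  | _, _, [] => True
  | b, e, e' :: l => R b e e' ∧ Ch R (!b) e' l

theorem Ch.mono {R R' : Bool → E → E → Prop} (h : ∀ b e e', R b e e' → R' b e e') :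
    ∀ {b : Bool} {e : E} {l : List E}, Ch R b e l → Ch R' b e l := by
  intro b e l
  induction l generalizing b e with
  | nil => intro _; trivial
  | cons e' l ih =>
    rintro ⟨h1, h2⟩
    exact ⟨h _ _ _ h1, ih h2⟩

variable {U V : Type} (s : E → U) (d : E → V)

/-- consecutive edges of a walk -/
def Jp : Bool → E → E → Prop
  | true, e, e' => e ≠ e' ∧ s e = s e'
  | false, e, e' => e ≠ e' ∧ d e = d e'

/-- consecutive edges of a walk, with equal colours at the vertices of `V` -/
def Js (σ : E → Bool) : Bool → E → E → Prop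
  | true, e, e' => e ≠ e' ∧ s e = s e'
  | false, e, e' => e ≠ e' ∧ d e = d e' ∧ σ e = σ e'

theorem Js.jp {σ : E → Bool} : ∀ b e e', Js s d σ b e e' → Jp s d b e e'
  | true, _, _, h => h
  | false, _, _, h => ⟨h.1, h.2.1⟩

/-- first vertex -/
def st : Bool → E → U ⊕ V
  | true, e => Sum.inr (d e)
  | false, e => Sum.inl (s e)

/-- last vertex -/
def lastv : Bool → E → List E → U ⊕ V
  | b, e, [] => st s d (!b) e
  | b, _, e' :: l => lastv (!b) e' l

/-- the edge of the graph -/
def ed (e : E) : Sym2 (U ⊕ V) := s(Sum.inl (s e), Sum.inr (d e))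

variable {s d}

theorem st_adj (b : Bool) (e : E) : (gr s d Set.univ).Adj (st s d b e) (st s d (!b) e) := by
  cases b
  · exact gr_adj (Set.mem_univ e)
  · exact (gr_adj (Set.mem_univ e)).symm

theorem st_ed (b : Bool) (e : E) : s(st s d b e, st s d (!b) e) = ed s d e := by
  cases b
  · rfl
  · exact Sym2.eq_swap

theorem st_eq {b : Bool} {e e' : E} (h : Jp s d b e e') : st s d (!b) e = st s d (!b) e' := by
  cases b
  · exact congrArg Sum.inr h.2
  · exact congrArg Sum.inl h.2

theorem Jp.ne {b : Bool} {e e' : E} (h : Jp s d b e e') : e ≠ e' := by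
  cases b
  · exact h.1
  · exact h.1

theorem Ch.walk {b : Bool} {e : E} {l : List E} (h : Ch (Jp s d) b e l) :
    ∃ p : (gr s d Set.univ).Walk (st s d b e) (lastv s d b e l),
      p.edges = (e :: l).map (ed s d) := by
  induction l generalizing b e with
  | nil =>
    change ∃ p : (gr s d Set.univ).Walk (st s d b e) (st s d (!b) e), p.edges = _
    refine ⟨SimpleGraph.Walk.cons (st_adj b e) SimpleGraph.Walk.nil, ?_⟩
    rw [SimpleGraph.Walk.edges_cons, SimpleGraph.Walk.edges_nil, st_ed]
    rfl
  | cons e' l ih =>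
    change ∃ p : (gr s d Set.univ).Walk (st s d b e) (lastv s d (!b) e' l), p.edges = _
    obtain ⟨h1, h2⟩ := h
    obtain ⟨p, hp⟩ := ih h2
    have hadj : (gr s d Set.univ).Adj (st s d b e) (st s d (!b) e') := by
      rw [← st_eq h1]
      exact st_adj b e
    refine ⟨SimpleGraph.Walk.cons hadj p, ?_⟩
    rw [SimpleGraph.Walk.edges_cons, hp, ← st_eq h1, st_ed]
    rfl

theorem Ch.isChain (hinj : ∀ e e', s e = s e' → d e = d e' → e = e') {b : Bool} {e : E}
    {l : List E} (h : Ch (Jp s d) b e l) : ((e :: l).map (ed s d)).IsChain (· ≠ ·) := by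
  induction l generalizing b e with
  | nil => simp
  | cons e' l ih =>
    obtain ⟨h1, h2⟩ := h
    rw [List.map_cons, List.map_cons, List.isChain_cons_cons]
    exact ⟨fun h3 => h1.ne (edge_inj hinj h3), ih h2⟩

theorem Ch.path (hinj : ∀ e e', s e = s e' → d e = d e' → e = e') {L : ℕ}
    (hg : (L : ℕ∞) < (gr s d Set.univ).egirth) {b : Bool} {e : E} {l : List E}
    (h : Ch (Jp s d) b e l) (hl : l.length + 1 ≤ L) :
    ∃ p : (gr s d Set.univ).Walk (st s d b e) (lastv s d b e l), p.IsPath ∧
      p.edges = (e :: l).map (ed s d) ∧ p.length = l.length + 1 := by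
  obtain ⟨p, hp⟩ := h.walk
  have hlen : p.length = l.length + 1 := by
    rw [← SimpleGraph.Walk.length_edges, hp, List.length_map, List.length_cons]
  exact ⟨p, isPath_of_nb hg p (by omega) (by rw [hp]; exact h.isChain hinj), hp, hlen⟩

theorem Ch.nodup (hinj : ∀ e e', s e = s e' → d e = d e' → e = e') {L : ℕ}
    (hg : (L : ℕ∞) < (gr s d Set.univ).egirth) {b : Bool} {e : E} {l : List E}
    (h : Ch (Jp s d) b e l) (hl : l.length + 1 ≤ L) : (e :: l).Nodup := by
  obtain ⟨p, hp, he, -⟩ := h.path hinj hg hl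
  have h1 := hp.isTrail.edges_nodup
  rw [he] at h1
  exact h1.of_map _

/-- Short chains are determined by their ends. -/
theorem Ch.uniq (hinj : ∀ e e', s e = s e' → d e = d e' → e = e') {r : ℕ}
    (hg : ((2 * r : ℕ) : ℕ∞) < (gr s d Set.univ).egirth) {b : Bool} {e e' : E} {l l' : List E}
    (h : Ch (Jp s d) b e l) (h' : Ch (Jp s d) b e' l') (hl : l.length + 1 = r)
    (hl' : l'.length + 1 = r) (hs : st s d b e = st s d b e')
    (hf : lastv s d b e l = lastv s d b e' l') : e = e' ∧ l = l' := by
  obtain ⟨p, hp, he, hlen⟩ := h.path hinj hg (by omega)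
  obtain ⟨p', hp', he', hlen'⟩ := h'.path hinj hg (by omega)
  have h1 : p = (p'.copy hs.symm hf.symm) := by
    apply path_uniq hg hp
    · simpa using hp'
    · omega
    · rw [SimpleGraph.Walk.length_copy]
      omega
  have h2 : (e :: l).map (ed s d) = (e' :: l').map (ed s d) := by
    rw [← he, ← he', h1, SimpleGraph.Walk.edges_copy]
  have h3 := List.map_injective_iff.2 (fun x y (hxy : ed s d x = ed s d y) => edge_inj hinj hxy) h2
  exact ⟨(List.cons.inj h3).1, (List.cons.inj h3).2⟩

theorem lastv_odd {b : Bool} {e : E} {l : List E} :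
    ∃ e' ∈ e :: l, lastv s d b e l = st s d (if l.length % 2 = 0 then !b else b) e' := by
  induction l generalizing b e with
  | nil => exact ⟨e, by simp, rfl⟩
  | cons e' l ih =>
    obtain ⟨f, hf, h⟩ := ih (b := !b) (e := e')
    refine ⟨f, List.mem_cons_of_mem _ hf, ?_⟩
    rw [lastv, h, List.length_cons]
    congr 1
    rcases Nat.mod_two_eq_zero_or_one l.length with h1 | h1
    · have h2 : ¬ (l.length + 1) % 2 = 0 := by omega
      rw [if_pos h1, if_neg h2, Bool.not_not]
    · have h2 : (l.length + 1) % 2 = 0 := by omega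
      rw [if_pos h2, if_neg (by omega)]

end chain

section tree

variable {E : Type} [DecidableEq E]

/-- the lists obtained by `n` steps -/
def Wk (nx : Bool → E → Finset E) : ℕ → Bool → E → Finset (List E)
  | 0, _, _ => {[]}
  | n + 1, b, e => (nx b e).biUnion fun e' => (Wk nx n (!b) e').image (List.cons e')

/-- number of branchings -/
def br (nx : Bool → E → Finset E) : Bool → E → List E → ℕ
  | _, _, [] => 0
  | b, e, e' :: l => (if 2 ≤ (nx b e).card then 1 else 0) + br nx (!b) e' l

theorem mem_Wk {nx : Bool → E → Finset E} {n : ℕ} {b : Bool} {e : E} {l : List E}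
    (h : l ∈ Wk nx n b e) : l.length = n ∧ Ch (fun b e e' => e' ∈ nx b e) b e l := by
  induction n generalizing b e l with
  | zero =>
    rw [Wk, mem_singleton] at h
    subst h
    exact ⟨rfl, trivial⟩
  | succ n ih =>
    rw [Wk, mem_biUnion] at h
    obtain ⟨e', he', h⟩ := h
    obtain ⟨l', hl', rfl⟩ := mem_image.1 h
    obtain ⟨h1, h2⟩ := ih hl'
    exact ⟨by rw [List.length_cons, h1], he', h2⟩

theorem card_Wk (nx : Bool → E → Finset E) (n : ℕ) (b : Bool) (e : E) :
    (Wk nx (n + 1) b e).card = ∑ e' ∈ nx b e, (Wk nx n (!b) e').card := by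
  rw [Wk, card_biUnion]
  · refine sum_congr rfl fun e' _ => card_image_of_injective _ fun x y h => (List.cons.inj h).2
  · intro x _ y _ hxy
    rw [Function.onFun, disjoint_left]
    intro l hl hl'
    obtain ⟨l1, -, rfl⟩ := mem_image.1 hl
    obtain ⟨l2, -, h⟩ := mem_image.1 hl'
    exact hxy (List.cons.inj h).1.symm

/-- Some list has few branchings. -/
theorem few (nx : Bool → E → Finset E) (S : Finset E) (hne : ∀ b, ∀ e ∈ S, (nx b e).Nonempty)
    (hS : ∀ b, ∀ e ∈ S, nx b e ⊆ S) (n : ℕ) (b : Bool) {e : E} (he : e ∈ S) :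
    ∃ l ∈ Wk nx n b e, 2 ^ br nx b e l ≤ (Wk nx n b e).card := by
  induction n generalizing b e with
  | zero => exact ⟨[], by simp [Wk], by simp [Wk, br]⟩
  | succ n ih =>
    obtain ⟨e', he', hmin⟩ := exists_min_image (nx b e) (fun e' => (Wk nx n (!b) e').card)
      (hne b e he)
    obtain ⟨l, hl, hbr⟩ := ih (!b) (hS b e he he')
    refine ⟨e' :: l, ?_, ?_⟩
    · rw [Wk, mem_biUnion]
      exact ⟨e', he', mem_image_of_mem _ hl⟩
    rw [card_Wk, br]
    have h1 : (nx b e).card * (Wk nx n (!b) e').card ≤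
        ∑ e' ∈ nx b e, (Wk nx n (!b) e').card := by
      rw [← smul_eq_mul, ← sum_const]
      exact sum_le_sum fun x hx => hmin x hx
    refine le_trans ?_ h1
    split_ifs with h2
    · rw [pow_add, pow_one]
      exact Nat.mul_le_mul h2 hbr
    · rw [zero_add]
      have h3 : 1 ≤ (nx b e).card := card_pos.2 (hne b e he)
      calc 2 ^ br nx (!b) e' l ≤ (Wk nx n (!b) e').card := hbr
        _ ≤ _ := Nat.le_mul_of_pos_left _ h3

end tree

end Pool.Agent.T6.H63.SK
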