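import Pool.Agent.T6.H63.SK.Peel

/-!
Counting the colourings for which there are many disjoint coloured chains.
-/

set_option autoImplicit false

namespace Pool.Agent.T6.H63.SK

open Finset Pool.Agent.T6.H63.LD

section colour

variable {U V E : Type} {s : E → U} {d : E → V}

/-- second edges of the pairs which meet in `V` -/
def sec : Bool → E → List E → List E
  | _, _, [] => []
  | true, _, e' :: l => sec false e' l
  | false, _, e' :: l => e' :: sec true e' l

theorem sec_sub (b : Bool) (e : E) (l : List E) : (sec b e l).Sublist l := by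
  induction l generalizing b e with
  | nil => cases b <;> simp [sec]
  | cons e' l ih =>
    cases b
    · rw [sec]
      exact (ih true e').cons_cons e'
    · rw [sec]
      exact (ih false e').cons e'

theorem sec_len (b : Bool) (e : E) (l : List E) :
    (sec b e l).length = (l.length + if b = true then 0 else 1) / 2 := by
  induction l generalizing b e with
  | nil => cases b <;> simp [sec]
  | cons e' l ih =>
    cases b
    · rw [sec, List.length_cons, List.length_cons, ih]
      simp only [if_true, Bool.false_eq_true, if_false]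
      try omega
    · rw [sec, List.length_cons, ih]
      simp only [if_true, Bool.false_eq_true, if_false]
      try omega

theorem sec_agree {σ σ' : E → Bool} {b : Bool} {e : E} {l : List E} (hnd : (e :: l).Nodup)
    (h : Ch (Js s d σ) b e l) (h' : Ch (Js s d σ') b e l)
    (hag : ∀ x ∈ e :: l, x ∉ sec b e l → σ x = σ' x) : ∀ x ∈ e :: l, σ x = σ' x := by
  have he : σ e = σ' e := by
    apply hag e (by simp)
    intro hmem
    exact (List.nodup_cons.1 hnd).1 ((sec_sub b e l).subset hmem)
  induction l generalizing b e with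
  | nil =>
    intro x hx
    rw [List.mem_singleton] at hx
    rw [hx]
    exact he
  | cons e' l ih =>
    obtain ⟨h1, h2⟩ := h
    obtain ⟨h1', h2'⟩ := h'
    have hnd' := (List.nodup_cons.1 hnd).2
    cases b
    · have he' : σ e' = σ' e' := by
        rw [← h1.2.2, he, h1'.2.2]
      have h3 := ih (b := true) (e := e') hnd' h2 h2' (by
        intro x hx hxs
        by_cases hxe : x = e'
        · rw [hxe, he']
        · apply hag x (List.mem_cons_of_mem _ hx)
          rw [sec, List.mem_cons]
          push Not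
          exact ⟨hxe, hxs⟩) he'
      intro x hx
      rcases List.mem_cons.1 hx with rfl | hx
      · exact he
      · exact h3 x hx
    · have he' : σ e' = σ' e' := by
        apply hag e' (by simp)
        rw [sec]
        intro hmem
        exact (List.nodup_cons.1 hnd').1 ((sec_sub false e' l).subset hmem)
      have h3 := ih (b := false) (e := e') hnd' h2 h2' (by
        intro x hx hxs
        exact hag x (List.mem_cons_of_mem _ hx) (by rw [sec]; exact hxs)) he'
      intro x hx
      rcases List.mem_cons.1 hx with rfl | hx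
      · exact he
      · exact h3 x hx

variable [Fintype E] [DecidableEq E]

theorem inj_card (P : Finset E) (G : Finset (E → Bool))
    (h : ∀ σ ∈ G, ∀ σ' ∈ G, (∀ e ∉ P, σ e = σ' e) → σ = σ') :
    G.card * 2 ^ P.card ≤ 2 ^ Fintype.card E := by
  classical
  have h1 : G.card ≤ 2 ^ (Fintype.card E - P.card) := by
    have h2 : (G.image fun σ => fun e : {e // e ∈ Pᶜ} => σ e.1).card = G.card := by
      apply card_image_of_injOn
      intro σ hσ σ' hσ' heq
      refine h σ hσ σ' hσ' fun e he => ?_
      exact congrFun heq ⟨e, mem_compl.2 he⟩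
    rw [← h2]
    refine (card_le_univ _).trans ?_
    rw [Fintype.card_fun, Fintype.card_bool, Fintype.card_coe, card_compl]
  calc G.card * 2 ^ P.card ≤ 2 ^ (Fintype.card E - P.card) * 2 ^ P.card :=
        Nat.mul_le_mul_right _ h1
    _ = 2 ^ Fintype.card E := by
        rw [← pow_add, Nat.sub_add_cancel (card_le_univ P)]

open Classical in
theorem fam_card (k t : ℕ) (L : Fin k → E × List E) (hlen : ∀ j, (L j).2.length = 2 * t + 1)
    (hnd : ∀ j, ((L j).1 :: (L j).2).Nodup)
    (hdis : ∀ i j, i ≠ j → ∀ x ∈ (L i).1 :: (L i).2, x ∉ (L j).1 :: (L j).2) :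
    (univ.filter fun σ : E → Bool => ∀ j, Ch (Js s d σ) true (L j).1 (L j).2).card *
      2 ^ (k * t) ≤ 2 ^ Fintype.card E := by
  set P : Finset E := univ.biUnion fun j : Fin k => (sec true (L j).1 (L j).2).toFinset with hP
  have hsub : ∀ j, ∀ x ∈ sec true (L j).1 (L j).2, x ∈ (L j).1 :: (L j).2 := fun j x hx =>
    List.mem_cons_of_mem _ ((sec_sub _ _ _).subset hx)
  have hPc : P.card = k * t := by
    rw [hP, card_biUnion]
    · have h1 : ∀ j : Fin k, (sec true (L j).1 (L j).2).toFinset.card = t := by
        intro j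
        rw [List.toFinset_card_of_nodup, sec_len, hlen]
        · simp only [if_true]
          omega
        · exact (sec_sub _ _ _).nodup (List.nodup_cons.1 (hnd j)).2
      simp [h1]
    · intro i _ j _ hij
      rw [Function.onFun, disjoint_left]
      intro x hx hx'
      rw [List.mem_toFinset] at hx hx'
      exact hdis i j hij x (hsub i x hx) (hsub j x hx')
  rw [← hPc]
  apply inj_card
  intro σ hσ σ' hσ' hag
  rw [mem_filter] at hσ hσ'
  ext e
  by_cases he : e ∈ P
  · rw [hP, mem_biUnion] at he
    obtain ⟨j, -, hj⟩ := he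
    rw [List.mem_toFinset] at hj
    refine sec_agree (hnd j) (hσ.2 j) (hσ'.2 j) ?_ e (hsub j e hj)
    intro x hx hxs
    apply hag
    rw [hP, mem_biUnion]
    rintro ⟨i, -, hi⟩
    rw [List.mem_toFinset] at hi
    by_cases hij : i = j
    · rw [hij] at hi
      exact hxs hi
    · exact hdis i j hij x (hsub i x hi) hx
  · rw [hag e he]

open Classical in
/-- The count. -/
theorem count_k (hinj : ∀ e e', s e = s e' → d e = d e' → e = e') (k t : ℕ)
    (hg : ((2 * (2 * t + 2) : ℕ) : ℕ∞) < (gr s d Set.univ).egirth) (V0 : Finset V) :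
    (univ.filter fun σ : E → Bool => ∃ L : Fin k → E × List E,
      (∀ j, (L j).2.length = 2 * t + 1 ∧ Ch (Js s d σ) true (L j).1 (L j).2 ∧
        ∀ x ∈ (L j).1 :: (L j).2, d x ∈ V0) ∧
      ∀ i j, i ≠ j → ∀ x ∈ (L i).1 :: (L i).2, x ∉ (L j).1 :: (L j).2).card * 2 ^ (k * t) ≤
      2 ^ Fintype.card E * (V0.card ^ 2) ^ k := by
  set Q : Finset (U ⊕ V) := V0.image Sum.inr with hQ
  set CH : Finset (E × List.Vector E (2 * t + 1)) := univ.filter fun x =>
    Ch (Jp s d) true x.1 x.2.toList ∧ st s d true x.1 ∈ Q ∧ lastv s d true x.1 x.2.toList ∈ Q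
    with hCH
  have hCHc : CH.card ≤ V0.card ^ 2 := by
    have h1 : (CH.image fun x => (st s d true x.1, lastv s d true x.1 x.2.toList)).card =
        CH.card := by
      apply card_image_of_injOn
      intro x hx y hy hxy
      simp only [hCH, coe_filter, mem_univ, true_and, Set.mem_ofPred_eq] at hx hy
      simp only [Prod.mk.injEq] at hxy
      obtain ⟨h2, h3⟩ := hx.1.uniq hinj hg hy.1 (by rw [List.Vector.toList_length])
        (by rw [List.Vector.toList_length]) hxy.1 hxy.2
      exact Prod.ext h2 (List.Vector.toList_injective h3)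
    rw [← h1]
    have h2 : (CH.image fun x => (st s d true x.1, lastv s d true x.1 x.2.toList)) ⊆ Q ×ˢ Q := by
      intro x hx
      obtain ⟨y, hy, rfl⟩ := mem_image.1 hx
      exact mem_product.2 (mem_filter.1 hy).2.2
    refine (card_le_card h2).trans ?_
    rw [card_product, sq]
    exact Nat.mul_le_mul card_image_le card_image_le
  -- the families
  set FL : Finset (Fin k → E × List.Vector E (2 * t + 1)) :=
    (Fintype.piFinset fun _ : Fin k => CH).filter fun L =>
      ∀ i j, i ≠ j → ∀ x ∈ (L i).1 :: (L i).2.toList, x ∉ (L j).1 :: (L j).2.toList with hFL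
  have hFLc : FL.card ≤ (V0.card ^ 2) ^ k := by
    refine (card_filter_le _ _).trans ?_
    rw [Fintype.card_piFinset, prod_const, card_univ, Fintype.card_fin]
    exact Nat.pow_le_pow_left hCHc k
  have hsub : (univ.filter fun σ : E → Bool => ∃ L : Fin k → E × List E,
      (∀ j, (L j).2.length = 2 * t + 1 ∧ Ch (Js s d σ) true (L j).1 (L j).2 ∧
        ∀ x ∈ (L j).1 :: (L j).2, d x ∈ V0) ∧
      ∀ i j, i ≠ j → ∀ x ∈ (L i).1 :: (L i).2, x ∉ (L j).1 :: (L j).2) ⊆
      FL.biUnion fun L => univ.filter fun σ : E → Bool =>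
        ∀ j, Ch (Js s d σ) true (L j).1 (L j).2.toList := by
    intro σ hσ
    obtain ⟨L, hL, hdis⟩ := (mem_filter.1 hσ).2
    rw [mem_biUnion]
    refine ⟨fun j => ((L j).1, ⟨(L j).2, (hL j).1⟩), ?_, ?_⟩
    · rw [hFL, mem_filter, Fintype.mem_piFinset]
      refine ⟨fun j => ?_, hdis⟩
      rw [hCH, mem_filter]
      refine ⟨mem_univ _, Ch.mono (Js.jp s d) (hL j).2.1, ?_, ?_⟩
      · rw [hQ, mem_image]
        exact ⟨d (L j).1, (hL j).2.2 _ (by simp), rfl⟩
      · obtain ⟨e', he', h⟩ := lastv_odd (s := s) (d := d) (b := true) (e := (L j).1)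
          (l := (L j).2)
        change lastv s d true (L j).1 (L j).2 ∈ Q
        rw [h, if_neg (by rw [(hL j).1]; omega), hQ, mem_image]
        exact ⟨d e', (hL j).2.2 _ he', rfl⟩
    · rw [mem_filter]
      exact ⟨mem_univ _, fun j => (hL j).2.1⟩
  calc _ ≤ (∑ L ∈ FL, (univ.filter fun σ : E → Bool =>
        ∀ j, Ch (Js s d σ) true (L j).1 (L j).2.toList).card) * 2 ^ (k * t) :=
        Nat.mul_le_mul_right _ ((card_le_card hsub).trans card_biUnion_le)
    _ = ∑ L ∈ FL, (univ.filter fun σ : E → Bool =>
        ∀ j, Ch (Js s d σ) true (L j).1 (L j).2.toList).card * 2 ^ (k * t) := sum_mul _ _ _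
    _ ≤ ∑ _L ∈ FL, 2 ^ Fintype.card E := by
        apply sum_le_sum
        intro L hL
        rw [hFL, mem_filter, Fintype.mem_piFinset] at hL
        refine fam_card (s := s) (d := d) k t (fun j => ((L j).1, (L j).2.toList)) (fun j => ?_)
          (fun j => ?_) hL.2
        · exact List.Vector.toList_length _
        · have h1 := (mem_filter.1 (hL.1 j)).2.1
          refine h1.nodup hinj (L := 2 * (2 * t + 2)) hg ?_
          rw [List.Vector.toList_length]
          omega
    _ = FL.card * 2 ^ Fintype.card E := by rw [sum_const, smul_eq_mul]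
    _ ≤ (V0.card ^ 2) ^ k * 2 ^ Fintype.card E := Nat.mul_le_mul_right _ hFLc
    _ = _ := mul_comm _ _

end colour

end Pool.Agent.T6.H63.SK
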