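import Pool.Agent.T6.H63.SK.Colour

/-!
The mean size of the space of coloured flows over a small set of vertices.
-/

set_option autoImplicit false

namespace Pool.Agent.T6.H63.SK

open Finset Module Pool.Agent.T6.H63.LD

theorem geom16 (n : ℕ) :
    ∑ k ∈ range n, ((1 : ℝ) / 16) ^ (k + 1) = 1 / 15 - 1 / 15 * (1 / 16) ^ n := by
  induction n with
  | zero => simp
  | succ n ih =>
    rw [sum_range_succ, ih, pow_succ]
    ring

section light

variable {U V E K : Type} [Fintype E] [DecidableEq E] [Field K]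

open Classical in
/-- coloured flows over `V0` -/
def JV (s : E → U) (d : E → V) (g : E → K) (V0 : Finset V) (σ : E → Bool) :
    Submodule K (E → K) where
  carrier := {a | (∀ u, ∑ e ∈ univ.filter (fun e => s e = u), a e = 0) ∧
    (∀ v i, ∑ e ∈ univ.filter (fun e => d e = v ∧ σ e = i), g e * a e = 0) ∧
    ∀ e, d e ∉ V0 → a e = 0}
  add_mem' {a b} ha hb := by
    refine ⟨fun u => ?_, fun v i => ?_, fun e he => ?_⟩
    · simp only [Pi.add_apply, sum_add_distrib]
      rw [ha.1 u, hb.1 u, add_zero]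
    · simp only [Pi.add_apply, mul_add, sum_add_distrib]
      rw [ha.2.1 v i, hb.2.1 v i, add_zero]
    · rw [Pi.add_apply, ha.2.2 e he, hb.2.2 e he, add_zero]
  zero_mem' := ⟨fun u => by simp, fun v i => by simp, fun e _ => rfl⟩
  smul_mem' t a ha := by
    refine ⟨fun u => ?_, fun v i => ?_, fun e he => ?_⟩
    · simp only [Pi.smul_apply, smul_eq_mul]
      rw [← mul_sum, ha.1 u, mul_zero]
    · simp only [Pi.smul_apply, smul_eq_mul, mul_left_comm _ t]
      rw [← mul_sum, ha.2.1 v i, mul_zero]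
    · rw [Pi.smul_apply, ha.2.2 e he, smul_zero]

/-- the ends of an edge -/
def kap (s : E → U) (d : E → V) (σ : E → Bool) : Bool → E → U ⊕ (V × Bool)
  | true, e => Sum.inl (s e)
  | false, e => Sum.inr (d e, σ e)

/-- the weights -/
def gg (g : E → K) : Bool → E → K
  | true, _ => 1
  | false, e => g e

variable {s : E → U} {d : E → V} {g : E → K} {V0 : Finset V} {σ : E → Bool}

omit [DecidableEq E] in
open Classical in
theorem flw_JV : Flw (kap s d σ) (gg g) (JV s d g V0 σ) := by
  intro a ha b k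
  cases b
  · rcases k with u | ⟨v, i⟩
    · rw [filter_eq_empty_iff.2, sum_empty]
      intro e _ h
      simp [kap] at h
    · rw [← ha.2.1 v i]
      apply sum_congr
      · ext e
        simp [kap]
      · intro e _
        rfl
  · rcases k with u | ⟨v, i⟩
    · rw [← ha.1 u]
      apply sum_congr
      · ext e
        simp [kap]
      · intro e _
        exact one_mul _
    · rw [filter_eq_empty_iff.2, sum_empty]
      intro e _ h
      simp [kap] at h

omit [Fintype E] [DecidableEq E] in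
theorem kap_js (b : Bool) (e e' : E) (h : e ≠ e' ∧ kap s d σ b e = kap s d σ b e') :
    Js s d σ b e e' := by
  obtain ⟨h1, h2⟩ := h
  cases b
  · simp only [kap, Sum.inr.injEq, Prod.mk.injEq] at h2
    exact ⟨h1, h2⟩
  · simp only [kap, Sum.inl.injEq] at h2
    exact ⟨h1, h2⟩

open Classical in
theorem wk_card (hinj : ∀ e e', s e = s e' → d e = d e' → e = e') (t : ℕ)
    (hg : ((2 * (2 * t + 2) : ℕ) : ℕ∞) < (gr s d Set.univ).egirth)
    (J : Submodule K (E → K)) (hJ : supp J ⊆ univ.filter fun e => d e ∈ V0) (e : E)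
    (he : e ∈ supp J) : (Wk (nxt (kap s d σ) J) (2 * t + 1) true e).card ≤ V0.card := by
  have hmem : ∀ l ∈ Wk (nxt (kap s d σ) J) (2 * t + 1) true e, l.length = 2 * t + 1 ∧
      Ch (Jp s d) true e l ∧ ∀ x ∈ e :: l, d x ∈ V0 := by
    intro l hl
    obtain ⟨h1, h2⟩ := mem_Wk hl
    refine ⟨h1, Ch.mono ?_ h2, ?_⟩
    · intro b x y hxy
      have h3 := (mem_filter.1 hxy).2
      exact Js.jp s d _ _ _ (kap_js b x y ⟨h3.2.symm, h3.1.symm⟩)
    · intro x hx
      rcases List.mem_cons.1 hx with rfl | hx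
      · exact (mem_filter.1 (hJ he)).2
      · exact (mem_filter.1 (hJ (Ch.mem (fun b e e' h => (mem_filter.1 h).1) h2 x hx))).2
  have h1 : ((Wk (nxt (kap s d σ) J) (2 * t + 1) true e).image fun l =>
      lastv s d true e l).card = (Wk (nxt (kap s d σ) J) (2 * t + 1) true e).card := by
    apply card_image_of_injOn
    intro l hl l' hl' h
    obtain ⟨h2, h3, -⟩ := hmem l hl
    obtain ⟨h4, h5, -⟩ := hmem l' hl'
    exact (h3.uniq hinj hg h5 (by omega) (by omega) rfl h).2
  have h2 : ((Wk (nxt (kap s d σ) J) (2 * t + 1) true e).image fun l =>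
      lastv s d true e l) ⊆ V0.image Sum.inr := by
    intro x hx
    obtain ⟨l, hl, rfl⟩ := mem_image.1 hx
    obtain ⟨h2, h3, h4⟩ := hmem l hl
    obtain ⟨e', he', h⟩ := lastv_odd (s := s) (d := d) (b := true) (e := e) (l := l)
    rw [h, if_neg (by rw [h2]; omega), mem_image]
    exact ⟨d e', h4 _ he', rfl⟩
  rw [← h1]
  exact (card_le_card h2).trans card_image_le

open Classical in
theorem count_dim (hinj : ∀ e e', s e = s e' → d e = d e' → e = e') (t : ℕ)
    (hg : ((2 * (2 * t + 2) : ℕ) : ℕ∞) < (gr s d Set.univ).egirth) (hgne : ∀ e, g e ≠ 0)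
    (V0 : Finset V) (k : ℕ) :
    (univ.filter fun σ : E → Bool => k * (Nat.log 2 V0.card + 1) <
      finrank K (JV s d g V0 σ) + (Nat.log 2 V0.card + 1)).card * 2 ^ (k * t) ≤
      2 ^ Fintype.card E * (V0.card ^ 2) ^ k := by
  refine le_trans (Nat.mul_le_mul_right _ (card_le_card ?_)) (count_k (s := s) (d := d) hinj k t
    hg V0)
  intro σ hσ
  rw [mem_filter] at hσ ⊢
  refine ⟨mem_univ _, ?_⟩
  have hsup : supp (JV s d g V0 σ) ⊆ univ.filter fun e => d e ∈ V0 := by
    intro e he
    obtain ⟨a, ha, hne⟩ := mem_supp.1 he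
    rw [mem_filter]
    refine ⟨mem_univ _, ?_⟩
    by_contra h
    exact hne (ha.2.2 e h)
  obtain ⟨L, hL, hd⟩ := many (κ := kap s d σ) (g := gg g) (by
      intro b e
      cases b
      · exact hgne e
      · exact one_ne_zero) (2 * t + 1) V0.card (univ.filter fun e => d e ∈ V0)
    (fun J hJ e he => wk_card hinj t hg J hJ e he) k (JV s d g V0 σ) flw_JV hsup hσ.2
  refine ⟨L, fun j => ⟨(hL j).1, Ch.mono kap_js (hL j).2.1, fun x hx => ?_⟩, hd⟩
  exact (mem_filter.1 (hsup ((hL j).2.2 x hx))).2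

open Classical in
/-- The mean size of the space of coloured flows. -/
theorem light (hinj : ∀ e e', s e = s e' → d e = d e' → e = e') (t : ℕ)
    (hg : ((2 * (2 * t + 2) : ℕ) : ℕ∞) < (gr s d Set.univ).egirth) (hgne : ∀ e, g e ≠ 0)
    (V0 : Finset V) (Q : ℝ) (hQ : 1 ≤ Q)
    (hx : 16 * (Q ^ (Nat.log 2 V0.card + 1) * (V0.card : ℝ) ^ 2) ≤ 2 ^ t) :
    ∑ σ : E → Bool, Q ^ finrank K (JV s d g V0 σ) ≤ 2 ^ Fintype.card E * (16 / 15) := by
  set h := Nat.log 2 V0.card + 1 with hh
  set n := Fintype.card E with hn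
  set x : ℝ := Q ^ h * (V0.card : ℝ) ^ 2 / 2 ^ t with hxdef
  have h2t : (0 : ℝ) < 2 ^ t := by positivity
  have hx0 : 0 ≤ x := by positivity
  have hx1 : x ≤ 1 / 16 := by
    rw [hxdef, div_le_iff₀ h2t]
    linarith
  have hpt : ∀ σ : E → Bool, Q ^ finrank K (JV s d g V0 σ) ≤ 1 + ∑ k ∈ range n,
      if (k + 1) * h < finrank K (JV s d g V0 σ) + h then Q ^ ((k + 1) * h) else 0 := by
    intro σ
    set f := finrank K (JV s d g V0 σ) with hf
    have hnn : ∀ k ∈ range n, 0 ≤ if (k + 1) * h < f + h then Q ^ ((k + 1) * h) else 0 := by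
      intro k _
      split_ifs <;> positivity
    have hs := sum_nonneg hnn
    rcases Nat.eq_zero_or_pos f with h0 | h0
    · have h1 : Q ^ f = 1 := by rw [h0, pow_zero]
      rw [h1]
      linarith
    · have hfn : f ≤ n := by
        have := Submodule.finrank_le (JV s d g V0 σ)
        rwa [finrank_fintype_fun_eq_card] at this
      set k := (f - 1) / h with hk
      have hh1 : 0 < h := by omega
      have h1 : k * h ≤ f - 1 := Nat.div_mul_le_self _ _
      have h2 : f - 1 < (k + 1) * h := by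
        have := Nat.lt_mul_div_succ (f - 1) hh1
        rwa [mul_comm] at this
      have h3 : k < n := by
        have : k ≤ f - 1 := Nat.div_le_self _ _
        omega
      have h4 : (k + 1) * h < f + h := by
        rw [Nat.succ_mul]
        omega
      have h5 : Q ^ f ≤ Q ^ ((k + 1) * h) := pow_le_pow_right₀ hQ (by omega)
      have h6 := single_le_sum hnn (mem_range.2 h3)
      rw [if_pos h4] at h6
      linarith
  have hcount : ∀ k, ∑ σ : E → Bool, (if (k + 1) * h < finrank K (JV s d g V0 σ) + h then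
      Q ^ ((k + 1) * h) else 0) ≤ 2 ^ n * x ^ (k + 1) := by
    intro k
    rw [← sum_filter, sum_const, nsmul_eq_mul]
    have h1 := count_dim hinj t hg hgne V0 (k + 1)
    have h2 : ((univ.filter fun σ : E → Bool => (k + 1) * h <
      finrank K (JV s d g V0 σ) + h).card : ℝ) * 2 ^ ((k + 1) * t) ≤
      2 ^ n * ((V0.card : ℝ) ^ 2) ^ (k + 1) := by exact_mod_cast h1
    have h3 : x ^ (k + 1) = Q ^ ((k + 1) * h) * ((V0.card : ℝ) ^ 2) ^ (k + 1) /
        2 ^ ((k + 1) * t) := by
      rw [hxdef, div_pow, mul_pow, ← pow_mul, ← pow_mul 2 t, mul_comm h, mul_comm t]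
    rw [h3, mul_div_assoc', le_div_iff₀ (by positivity)]
    calc _ = ((univ.filter fun σ : E → Bool => (k + 1) * h <
          finrank K (JV s d g V0 σ) + h).card : ℝ) * 2 ^ ((k + 1) * t) * Q ^ ((k + 1) * h) := by
          ring
      _ ≤ 2 ^ n * ((V0.card : ℝ) ^ 2) ^ (k + 1) * Q ^ ((k + 1) * h) := by gcongr
      _ = _ := by ring
  have hgeom : ∑ k ∈ range n, x ^ (k + 1) ≤ 1 / 15 := by
    have h1 : ∀ k ∈ range n, x ^ (k + 1) ≤ (1 / 16) ^ (k + 1) := fun k _ => by gcongr
    refine (sum_le_sum h1).trans ?_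
    rw [geom16]
    have : (0 : ℝ) ≤ 1 / 15 * (1 / 16) ^ n := by positivity
    linarith
  calc ∑ σ : E → Bool, Q ^ finrank K (JV s d g V0 σ)
      ≤ ∑ σ : E → Bool, (1 + ∑ k ∈ range n,
        if (k + 1) * h < finrank K (JV s d g V0 σ) + h then Q ^ ((k + 1) * h) else 0) :=
        sum_le_sum fun σ _ => hpt σ
    _ = 2 ^ n + ∑ k ∈ range n, ∑ σ : E → Bool,
        (if (k + 1) * h < finrank K (JV s d g V0 σ) + h then Q ^ ((k + 1) * h) else 0) := by
        rw [sum_add_distrib, sum_comm, sum_const, card_univ, Fintype.card_fun, Fintype.card_bool,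
          nsmul_eq_mul, mul_one]
        push_cast
        rfl
    _ ≤ 2 ^ n + ∑ k ∈ range n, 2 ^ n * x ^ (k + 1) := by
        gcongr with k _
        exact hcount k
    _ = 2 ^ n * (1 + ∑ k ∈ range n, x ^ (k + 1)) := by
        rw [← mul_sum]
        ring
    _ ≤ 2 ^ n * (1 + 1 / 15) := by gcongr
    _ = _ := by norm_num

end light

end Pool.Agent.T6.H63.SK
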