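import Pool.Agent.T6.H63.LD.Lin

/-!
Second moment bound: a mixture of uniform distributions on subspaces seen through linear forms.
-/

set_option autoImplicit false

namespace Pool.Agent.T6.H63.SK

open Finset Module

section orth

variable {E K : Type} [Fintype E] [Field K]

/-- the orthogonal complement for the standard form -/
def orth (M : Submodule K (E → K)) : Submodule K (E → K) where
  carrier := {b | ∀ c ∈ M, ∑ e, b e * c e = 0}
  add_mem' {a b} ha hb := by
    intro c hc
    simp only [Pi.add_apply, add_mul, sum_add_distrib]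
    rw [ha c hc, hb c hc, add_zero]
  zero_mem' := by
    intro c _
    simp
  smul_mem' t a ha := by
    intro c hc
    simp only [Pi.smul_apply, smul_eq_mul, mul_assoc]
    rw [← mul_sum, ha c hc, mul_zero]

theorem mem_orth {M : Submodule K (E → K)} {b : E → K} :
    b ∈ orth M ↔ ∀ c ∈ M, ∑ e, b e * c e = 0 := Iff.rfl

theorem finrank_orth (M : Submodule K (E → K)) :
    finrank K M + finrank K (orth M) = Fintype.card E := by
  classical
  have h1 : orth M = M.dualAnnihilator.comap (dotProductEquiv K E).toLinearMap := by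
    ext b
    simp [mem_orth, Submodule.mem_dualAnnihilator, dotProduct]
  have h2 : finrank K (orth M) = finrank K M.dualAnnihilator := by
    rw [h1]
    exact (LinearEquiv.ofSubmodule' (dotProductEquiv K E) M.dualAnnihilator).finrank_eq
  rw [h2, Subspace.finrank_add_finrank_dualAnnihilator_eq, finrank_fintype_fun_eq_card]

theorem orth_orth (M : Submodule K (E → K)) : orth (orth M) = M := by
  symm
  apply Submodule.eq_of_le_of_finrank_eq
  · intro c hc b hb
    have := hb c hc
    rw [← this]
    exact sum_congr rfl fun e _ => mul_comm _ _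
  · have h1 := finrank_orth M
    have h2 := finrank_orth (orth M)
    omega

theorem orth_anti {M M' : Submodule K (E → K)} (h : M ≤ M') : orth M' ≤ orth M :=
  fun _ hb c hc => hb c (h hc)

end orth

section moment

variable {E K : Type} [Fintype E] [Field K] [Fintype K]

theorem mean_range {P : Type} [AddCommGroup P] [Module K P] [Fintype P] (Φ : P →ₗ[K] (E → K))
    (N : Submodule K (E → K)) (F : (E → K) → ℝ) (hF : ∀ c, ∀ n ∈ N, F (c + n) = F c)
    [DecidableEq E] [DecidablePred (· ∈ LinearMap.range Φ ⊔ N)] :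
    (∑ p, F (Φ p)) / Fintype.card P =
      (∑ c ∈ univ.filter (· ∈ LinearMap.range Φ ⊔ N), F c) /
        Nat.card (LinearMap.range Φ ⊔ N : Submodule K (E → K)) := by
  classical
  set Ψ : (P × N) →ₗ[K] (E → K) := Φ.coprod N.subtype with hΨ
  have hΨa : ∀ x : P × N, Ψ x = Φ x.1 + x.2 := fun x => by simp [hΨ]
  have hrange : LinearMap.range Ψ = LinearMap.range Φ ⊔ N := by
    rw [hΨ, LinearMap.range_coprod, Submodule.range_subtype]
  have hP : (0 : ℝ) < Fintype.card P := by
    exact_mod_cast Fintype.card_pos_iff.2 ⟨0⟩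
  have hN : (0 : ℝ) < Fintype.card N := by
    exact_mod_cast Fintype.card_pos_iff.2 ⟨0⟩
  have hM : (0 : ℝ) < Nat.card (LinearMap.range Φ ⊔ N : Submodule K (E → K)) := by
    exact_mod_cast Nat.card_pos
  have h1 : ∑ x : P × N, F (Ψ x) = Fintype.card N * ∑ p, F (Φ p) := by
    rw [Fintype.sum_prod_type, mul_sum]
    refine sum_congr rfl fun p _ => ?_
    have : ∀ n : N, F (Ψ (p, n)) = F (Φ p) := fun n => by
      rw [hΨa]
      exact hF _ _ n.2
    simp only [this, sum_const, card_univ, nsmul_eq_mul]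
  have h2 : ∑ x : P × N, F (Ψ x) =
      ∑ c ∈ univ.filter (· ∈ LinearMap.range Φ ⊔ N),
        ((univ.filter fun x => Ψ x = c).card : ℝ) * F c := by
    rw [← sum_fiberwise_of_maps_to (s := univ)
      (t := univ.filter (· ∈ LinearMap.range Φ ⊔ N)) (g := Ψ)]
    · refine sum_congr rfl fun c _ => ?_
      rw [← nsmul_eq_mul, ← sum_const]
      refine sum_congr rfl fun x hx => ?_
      rw [(mem_filter.1 hx).2]
    · intro x _
      rw [mem_filter, ← hrange]
      exact ⟨mem_univ _, x, rfl⟩
  have h3 : ∀ c ∈ univ.filter (· ∈ LinearMap.range Φ ⊔ N),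
      ((univ.filter fun x => Ψ x = c).card : ℝ) * F c =
        (Fintype.card P * Fintype.card N) /
          Nat.card (LinearMap.range Φ ⊔ N : Submodule K (E → K)) * F c := by
    intro c hc
    have hc' := (mem_filter.1 hc).2
    rw [← hrange] at hc'
    have := Pool.Agent.T6.H63.LD.card_fib Ψ hc'
    rw [Fintype.card_prod, hrange] at this
    have h4 : ((univ.filter fun x => Ψ x = c).card : ℝ) *
        Nat.card (LinearMap.range Φ ⊔ N : Submodule K (E → K)) =
        Fintype.card P * Fintype.card N := by exact_mod_cast this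
    rw [← h4]
    field_simp
  rw [h1, sum_congr rfl h3, ← mul_sum] at h2
  rw [div_eq_div_iff hP.ne' hM.ne']
  have h5 : (Fintype.card N : ℝ) * ∑ p, F (Φ p) *
      Nat.card (LinearMap.range Φ ⊔ N : Submodule K (E → K)) =
      Fintype.card N * ((∑ c ∈ univ.filter (· ∈ LinearMap.range Φ ⊔ N), F c) *
        Fintype.card P) := by
    rw [← sum_mul, ← mul_assoc, h2]
    field_simp
  rw [← sum_mul] at h5
  exact mul_left_cancel₀ hN.ne' h5

variable {q : ℕ} [Fact q.Prime]

/-- the forms that see two of the subspaces -/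
def wit {I P : Type} [AddCommGroup P] [Module K P] (Φ : I → P →ₗ[K] (E → K)) {T : ℕ}
    (a : Fin T → E → K) (i i' : I) : Submodule K (E → K) :=
  orth ((LinearMap.range (Φ i) ⊔ orth (Submodule.span K (Set.range a))) ⊔
    (LinearMap.range (Φ i') ⊔ orth (Submodule.span K (Set.range a))))

omit [Fintype K] in
theorem mem_wit {I P : Type} [AddCommGroup P] [Module K P] (Φ : I → P →ₗ[K] (E → K)) {T : ℕ}
    (a : Fin T → E → K) (i i' : I) {b : E → K} (hb : b ∈ wit Φ a i i') :
    b ∈ Submodule.span K (Set.range a) ∧ (∀ p, ∑ e, b e * Φ i p e = 0) ∧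
      ∀ p, ∑ e, b e * Φ i' p e = 0 := by
  refine ⟨?_, ?_, ?_⟩
  · rw [← orth_orth (Submodule.span K (Set.range a))]
    exact orth_anti (le_sup_right.trans le_sup_left) hb
  · intro p
    exact hb _ (Submodule.mem_sup_left (Submodule.mem_sup_left ⟨p, rfl⟩))
  · intro p
    exact hb _ (Submodule.mem_sup_right (Submodule.mem_sup_left ⟨p, rfl⟩))

omit [Fintype K] in
theorem mem_orth_span {T : ℕ} (a : Fin T → E → K) {n : E → K}
    (hn : n ∈ orth (Submodule.span K (Set.range a))) (j : Fin T) : ∑ e, a j e * n e = 0 := by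
  have := hn (a j) (Submodule.subset_span ⟨j, rfl⟩)
  rw [← this]
  exact sum_congr rfl fun e _ => mul_comm _ _

theorem second_moment {I P : Type} [Fintype I] [Nonempty I] [AddCommGroup P] [Module K P]
    [Fintype P] [DecidableEq E] (Φ : I → P →ₗ[K] (E → K)) {T : ℕ} (a : Fin T → E → K)
    (f : (Fin T → K) → ℝ) (hf0 : ∀ v, 0 ≤ f v) (hf1 : ∀ v, f v ≤ 1) :
    ((∑ i, ∑ p, f (fun j => ∑ e, a j e * Φ i p e)) / (Fintype.card I * Fintype.card P) -
      (∑ c : E → K, f (fun j => ∑ e, a j e * c e)) / Fintype.card (E → K)) ^ 2 ≤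
    (∑ i, ∑ i', (Nat.card (wit Φ a i i') : ℝ)) / (Fintype.card I : ℝ) ^ 2 - 1 := by
  classical
  set N := orth (Submodule.span K (Set.range a)) with hN
  set M : I → Submodule K (E → K) := fun i => LinearMap.range (Φ i) ⊔ N with hM
  set F : (E → K) → ℝ := fun c => f (fun j => ∑ e, a j e * c e) with hF
  have hFinv : ∀ c, ∀ n ∈ N, F (c + n) = F c := by
    intro c n hn
    simp only [hF, Pi.add_apply, mul_add, sum_add_distrib]
    congr 1
    ext j
    rw [mem_orth_span a hn j, add_zero]
  have hI : (0 : ℝ) < Fintype.card I := by exact_mod_cast Fintype.card_pos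
  have hP : (0 : ℝ) < Fintype.card P := by exact_mod_cast Fintype.card_pos_iff.2 ⟨0⟩
  set G : ℝ := (Fintype.card (E → K) : ℝ) with hG
  have hG0 : 0 < G := by
    rw [hG]
    exact_mod_cast Fintype.card_pos
  have hMc : ∀ i, (0 : ℝ) < Nat.card (M i) := fun i => by exact_mod_cast Nat.card_pos
  -- the density
  set g : I → (E → K) → ℝ := fun i c => if c ∈ M i then G / Nat.card (M i) else 0 with hg
  set D : (E → K) → ℝ := fun c => (∑ i, g i c) / Fintype.card I with hD
  have hmean : ∀ i, (∑ p, F (Φ i p)) / Fintype.card P = (∑ c, F c * g i c) / G := by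
    intro i
    rw [mean_range (Φ i) N F hFinv, sum_filter]
    have h1 : ∑ c, F c * g i c = (∑ c, if c ∈ LinearMap.range (Φ i) ⊔ N then F c else 0) *
        (G / Nat.card (M i)) := by
      rw [sum_mul]
      refine sum_congr rfl fun c _ => ?_
      simp only [hg, hM]
      split_ifs <;> simp
    rw [h1]
    have := (hMc i).ne'
    simp only [hM] at this ⊢
    field_simp
  have hcardM : ∀ i, ∑ c, g i c = G := by
    intro i
    simp only [hg]
    rw [← sum_filter, sum_const, nsmul_eq_mul]
    have h1 : ((univ.filter fun c => c ∈ M i).card : ℝ) = Nat.card (M i) := by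
      rw [Nat.card_eq_fintype_card, Fintype.card_subtype]
    rw [h1]
    have := (hMc i).ne'
    field_simp
  have hpair : ∀ i i', ∑ c, g i c * g i' c = G * Nat.card (wit Φ a i i') := by
    intro i i'
    have h1 : ∑ c, g i c * g i' c = (Nat.card (M i ⊓ M i' : Submodule K (E → K)) : ℝ) *
        (G / Nat.card (M i) * (G / Nat.card (M i'))) := by
      have h2 : ∀ c, g i c * g i' c = if c ∈ M i ⊓ M i' then
          (G / Nat.card (M i) * (G / Nat.card (M i'))) else 0 := by
        intro c
        simp only [hg, Submodule.mem_inf]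
        by_cases h3 : c ∈ M i <;> by_cases h4 : c ∈ M i' <;> simp [h3, h4]
      simp only [h2]
      rw [← sum_filter, sum_const, nsmul_eq_mul]
      congr 2
      rw [Nat.card_eq_fintype_card, Fintype.card_subtype]
    have hq : (Nat.card K : ℝ) ≠ 0 := by
      have : 0 < Nat.card K := Nat.card_pos
      exact_mod_cast this.ne'
    have hGc : G = (Nat.card K : ℝ) ^ Fintype.card E := by
      rw [hG, Fintype.card_fun, Nat.card_eq_fintype_card]
      push_cast
      rfl
    have hsub : ∀ L : Submodule K (E → K), (Nat.card L : ℝ) = (Nat.card K : ℝ) ^ finrank K L := by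
      intro L
      rw [Module.natCard_eq_pow_finrank (K := K) (V := L)]
      push_cast
      rfl
    rw [h1, hGc, wit, hsub, hsub, hsub, hsub]
    have h5 := Submodule.finrank_sup_add_finrank_inf_eq (M i) (M i')
    have h6 := finrank_orth (M i ⊔ M i')
    have h7 : Fintype.card E + finrank K (M i ⊓ M i' : Submodule K (E → K)) =
        finrank K (orth (M i ⊔ M i')) + (finrank K (M i) + finrank K (M i')) := by omega
    have h8 : (Nat.card K : ℝ) ^ Fintype.card E *
        (Nat.card K : ℝ) ^ finrank K (M i ⊓ M i' : Submodule K (E → K)) =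
        (Nat.card K : ℝ) ^ finrank K (orth (M i ⊔ M i')) *
        ((Nat.card K : ℝ) ^ finrank K (M i) * (Nat.card K : ℝ) ^ finrank K (M i')) := by
      rw [← pow_add, h7, pow_add, pow_add]
    field_simp
    rw [mul_comm ((Nat.card K : ℝ) ^ finrank K (M i ⊓ M i' : Submodule K (E → K))), h8]
    ring
  -- the two expectations
  have hyes : (∑ i, ∑ p, F (Φ i p)) / (Fintype.card I * Fintype.card P) =
      (∑ c, F c * D c) / G := by
    have h1 : (∑ i, ∑ p, F (Φ i p)) / (Fintype.card I * Fintype.card P) =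
        (∑ i, (∑ p, F (Φ i p)) / Fintype.card P) / Fintype.card I := by
      rw [← sum_div, div_div, mul_comm (Fintype.card P : ℝ)]
    rw [h1]
    simp only [hmean, hD]
    rw [← sum_div, sum_comm, div_right_comm]
    congr 1
    rw [sum_div]
    refine sum_congr rfl fun c _ => ?_
    rw [← mul_sum, mul_div_assoc]
  have hDsum : ∑ c, D c = G := by
    simp only [hD]
    rw [← sum_div, sum_comm]
    simp only [hcardM, sum_const, card_univ, nsmul_eq_mul]
    field_simp
  have hDsq : ∑ c, D c ^ 2 = G * ((∑ i, ∑ i', (Nat.card (wit Φ a i i') : ℝ)) /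
      (Fintype.card I : ℝ) ^ 2) := by
    have h1 : ∀ c, D c ^ 2 = (∑ i, ∑ i', g i c * g i' c) / (Fintype.card I : ℝ) ^ 2 := by
      intro c
      simp only [hD]
      rw [div_pow, sq (∑ i, g i c), sum_mul_sum]
    simp only [h1]
    rw [← sum_div, sum_comm, mul_div_assoc']
    congr 1
    rw [mul_sum]
    refine sum_congr rfl fun i _ => ?_
    rw [sum_comm, mul_sum]
    exact sum_congr rfl fun i' _ => hpair i i'
  have hcs := Finset.sum_mul_sq_le_sq_mul_sq (univ : Finset (E → K)) F (fun c => D c - 1)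
  have hF2 : ∑ c, F c ^ 2 ≤ G := by
    calc ∑ c, F c ^ 2 ≤ ∑ _c : E → K, (1 : ℝ) := by
          refine sum_le_sum fun c _ => ?_
          have h0 := hf0 (fun j => ∑ e, a j e * c e)
          have h1 := hf1 (fun j => ∑ e, a j e * c e)
          exact pow_le_one₀ h0 h1
      _ = G := by simp [hG]
  have hD2 : ∑ c, (D c - 1) ^ 2 = ∑ c, D c ^ 2 - G := by
    have h1 : ∀ c, (D c - 1) ^ 2 = D c ^ 2 - 2 * D c + 1 := fun c => by ring
    simp only [h1]
    rw [sum_add_distrib, sum_sub_distrib, ← mul_sum, hDsum]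
    simp only [sum_const, card_univ, nsmul_eq_mul, mul_one]
    rw [← hG]
    ring
  change ((∑ i, ∑ p, F (Φ i p)) / (Fintype.card I * Fintype.card P) - (∑ c, F c) / G) ^ 2 ≤ _
  have hdiff : (∑ i, ∑ p, F (Φ i p)) / (Fintype.card I * Fintype.card P) - (∑ c, F c) / G =
      (∑ c, F c * (D c - 1)) / G := by
    rw [hyes, ← sub_div, ← sum_sub_distrib]
    congr 1
    exact sum_congr rfl fun c _ => by ring
  rw [hdiff, div_pow, div_le_iff₀ (by positivity)]
  have h0 : 0 ≤ ∑ c, (D c - 1) ^ 2 := sum_nonneg fun c _ => sq_nonneg _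
  calc (∑ c, F c * (D c - 1)) ^ 2 ≤ (∑ c, F c ^ 2) * ∑ c, (D c - 1) ^ 2 := hcs
    _ ≤ G * ∑ c, (D c - 1) ^ 2 := by gcongr
    _ = _ := by
        rw [hD2, hDsq]
        ring

end moment

end Pool.Agent.T6.H63.SK
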