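import Pool.Agent.T6.H63.SK.Plant

/-!
Random square games have small value.
-/

set_option autoImplicit false

namespace Pool.Agent.T6.H63.SK

open Finset

variable {U V E : Type} [Fintype E] {q : ℕ} [Fact q.Prime]

theorem two_roots (a b : ZMod q) : (univ.filter fun z : ZMod q => (a + z) ^ 2 = b).card ≤ 2 := by
  by_cases h : ∃ z0, (a + z0) ^ 2 = b
  · obtain ⟨z0, h0⟩ := h
    have hsub : (univ.filter fun z : ZMod q => (a + z) ^ 2 = b) ⊆ {z0, -2 * a - z0} := by
      intro z hz
      rw [mem_filter] at hz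
      rw [mem_insert, mem_singleton]
      have h1 : (z - z0) * (2 * a + z + z0) = 0 := by
        have h2 := hz.2
        rw [← h0] at h2
        linear_combination h2
      rcases mul_eq_zero.1 h1 with h2 | h2
      · left
        exact sub_eq_zero.1 h2
      · right
        linear_combination h2
    exact (card_le_card hsub).trans card_le_two
  · have : (univ.filter fun z : ZMod q => (a + z) ^ 2 = b) = ∅ := by
      rw [filter_eq_empty_iff]
      intro z _ hz
      exact h ⟨z, hz⟩
    rw [this]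
    simp

/-- Chernoff bound for one labeling. -/
theorem chern2 [DecidableEq E] (x y : E → ZMod q) {t lam : ℝ} (hl : 1 ≤ lam) :
    ((univ.filter fun c : E → ZMod q =>
        t < ((univ.filter fun e => (x e + c e) ^ 2 = y e).card : ℝ)).card : ℝ) * lam ^ t ≤
      ((q : ℝ) + 2 * lam) ^ Fintype.card E := by
  have hl0 : 0 < lam := by linarith
  have h1 : ∑ c : E → ZMod q, ∏ e, (if (x e + c e) ^ 2 = y e then lam else 1) ≤
      ((q : ℝ) + 2 * lam) ^ Fintype.card E := by
    have := Finset.prod_univ_sum (fun _ : E => (univ : Finset (ZMod q)))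
      (fun e z => if (x e + z) ^ 2 = y e then lam else (1 : ℝ))
    rw [Fintype.piFinset_univ] at this
    rw [← this]
    have h2 : ∀ e : E, ∑ z : ZMod q, (if (x e + z) ^ 2 = y e then lam else (1 : ℝ)) ≤
        (q : ℝ) + 2 * lam := by
      intro e
      rw [Finset.sum_ite, sum_const, sum_const, nsmul_eq_mul, nsmul_eq_mul, mul_one]
      have h3 : ((univ.filter fun z : ZMod q => (x e + z) ^ 2 = y e).card : ℝ) ≤ 2 := by
        exact_mod_cast two_roots (x e) (y e)
      have h4 : ((univ.filter fun z : ZMod q => ¬ (x e + z) ^ 2 = y e).card : ℝ) ≤ q := by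
        have := card_filter_le (univ : Finset (ZMod q)) (fun z => ¬ (x e + z) ^ 2 = y e)
        rw [card_univ, ZMod.card] at this
        exact_mod_cast this
      nlinarith
    calc ∏ e, ∑ z : ZMod q, (if (x e + z) ^ 2 = y e then lam else (1 : ℝ))
        ≤ ∏ _e : E, ((q : ℝ) + 2 * lam) := prod_le_prod (fun e _ => sum_nonneg fun z _ => by
          split_ifs <;> linarith) (fun e _ => h2 e)
      _ = _ := by rw [prod_const, card_univ]
  refine le_trans ?_ h1
  rw [← nsmul_eq_mul, ← sum_const]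
  refine (sum_le_sum fun c hc => ?_).trans
    (sum_le_sum_of_subset_of_nonneg (subset_univ _) fun c _ _ => ?_)
  · rw [prod_ite, prod_const, prod_const_one, mul_one, ← Real.rpow_natCast]
    exact Real.rpow_le_rpow_of_exponent_le hl (mem_filter.1 hc).2.le
  · exact prod_nonneg fun e _ => by split_ifs <;> linarith

open Classical in
theorem no_card2 [DecidableEq E] [Fintype U] [Fintype V] {s : E → U} {d : E → V} {δ : ℝ}
    (hδ : 0 < δ) (hδ1 : δ ≤ 1 / 4)
    (hm : 3 * ((Fintype.card U : ℝ) + Fintype.card V + 1) ≤ δ * Fintype.card E)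
    (hq : 8 / δ ^ 3 ≤ q) :
    ((univ.filter fun c : E → ZMod q => ∃ (x : U → ZMod q) (y : V → ZMod q),
        δ * Fintype.card E <
          ((univ.filter fun e => (x (s e) + c e) ^ 2 = y (d e)).card : ℝ)).card : ℝ)
      ≤ (q : ℝ) ^ Fintype.card E * (1 / 64) := by
  have hq0 : (0 : ℝ) < q := by exact_mod_cast (Fact.out : q.Prime).pos
  have hq512 : (512 : ℝ) ≤ q := by
    refine le_trans ?_ hq
    rw [le_div_iff₀ (by positivity)]
    have : δ ^ 3 ≤ (1 / 4) ^ 3 := by gcongr
    linarith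
  set m := Fintype.card E with hmdef
  set Q : ℝ := (q : ℝ) ^ (1 / 3 : ℝ) with hQ
  have hQ0 : 0 < Q := by positivity
  have hQ3 : Q ^ 3 = q := by
    rw [hQ, ← Real.rpow_natCast, ← Real.rpow_mul hq0.le]
    norm_num
  have hQ4 : 8 ≤ Q := by
    by_contra hlt
    push Not at hlt
    have : Q ^ 3 < 8 ^ 3 := by gcongr
    rw [hQ3] at this
    linarith
  have hδQ : 2 ≤ δ * Q := by
    by_contra hlt
    push Not at hlt
    have h1 : (δ * Q) ^ 3 < 2 ^ 3 := by gcongr
    rw [mul_pow, hQ3] at h1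
    rw [div_le_iff₀ (by positivity)] at hq
    linarith [mul_comm (q : ℝ) (δ ^ 3)]
  set lam : ℝ := δ * q / 2 with hlam
  have hlamQ : Q ^ 2 ≤ lam := by
    rw [hlam, ← hQ3]
    nlinarith [pow_pos hQ0 2]
  have hlam1 : 1 ≤ lam := by nlinarith
  have hlam0 : 0 < lam := by linarith
  have hexp : Real.exp 1 ≤ Q := by linarith [Real.exp_one_lt_d9]
  -- one labeling
  have hone : ∀ (x : U → ZMod q) (y : V → ZMod q),
      ((univ.filter fun c : E → ZMod q =>
        δ * m < ((univ.filter fun e => (x (s e) + c e) ^ 2 = y (d e)).card : ℝ)).card : ℝ) ≤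
      (q : ℝ) ^ m * (1 / Q ^ (δ * m)) := by
    intro x y
    have h1 := chern2 (q := q) (fun e => x (s e)) (fun e => y (d e)) (t := δ * m) hlam1
    have h2 : ((q : ℝ) + 2 * lam) ^ m ≤ (q : ℝ) ^ m * Q ^ (δ * m) := by
      have h3 : (q : ℝ) + 2 * lam ≤ q * Real.exp δ := by
        have := Real.add_one_le_exp δ
        calc (q : ℝ) + 2 * lam ≤ q * (δ + 1) := by rw [hlam]; linarith
          _ ≤ q * Real.exp δ := by gcongr
      calc ((q : ℝ) + 2 * lam) ^ m ≤ (q * Real.exp δ) ^ m := by
            gcongr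
        _ = (q : ℝ) ^ m * Real.exp 1 ^ (δ * m) := by
            rw [mul_pow, ← Real.exp_nat_mul, Real.exp_one_rpow]
            ring_nf
        _ ≤ _ := by gcongr
    have h4 : (Q ^ 2) ^ (δ * m) ≤ lam ^ (δ * m) := by gcongr
    have h5 : ((Q ^ 2 : ℝ)) ^ (δ * m) = Q ^ (δ * m) * Q ^ (δ * m) := by
      rw [sq, Real.mul_rpow hQ0.le hQ0.le]
    have hQp : 0 < Q ^ (δ * m) := by positivity
    set A : ℝ := ((univ.filter fun c : E → ZMod q =>
        δ * m < ((univ.filter fun e => (x (s e) + c e) ^ 2 = y (d e)).card : ℝ)).card : ℝ) with hA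
    have hA0 : 0 ≤ A := by positivity
    have h6 : A * (Q ^ (δ * m) * Q ^ (δ * m)) ≤ (q : ℝ) ^ m * Q ^ (δ * m) := by
      rw [← h5]
      exact (mul_le_mul_of_nonneg_left h4 hA0).trans (h1.trans h2)
    rw [mul_one_div, le_div_iff₀ hQp]
    have h7 : (A * Q ^ (δ * m)) * Q ^ (δ * m) ≤ (q : ℝ) ^ m * Q ^ (δ * m) := by
      rw [mul_assoc]
      exact h6
    exact le_of_mul_le_mul_right h7 hQp
  have hsum : ((univ.filter fun c : E → ZMod q => ∃ (x : U → ZMod q) (y : V → ZMod q),
        δ * m < ((univ.filter fun e => (x (s e) + c e) ^ 2 = y (d e)).card : ℝ)).card : ℝ) ≤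
      ∑ _xy : (U → ZMod q) × (V → ZMod q), (q : ℝ) ^ m * (1 / Q ^ (δ * m)) := by
    have hsub : (univ.filter fun c : E → ZMod q => ∃ (x : U → ZMod q) (y : V → ZMod q),
        δ * m < ((univ.filter fun e => (x (s e) + c e) ^ 2 = y (d e)).card : ℝ)) ⊆
        (univ : Finset ((U → ZMod q) × (V → ZMod q))).biUnion fun xy =>
          univ.filter fun c : E → ZMod q =>
            δ * m < ((univ.filter fun e => (xy.1 (s e) + c e) ^ 2 = xy.2 (d e)).card : ℝ) := by
      intro c hc
      simp only [mem_filter, mem_univ, true_and, mem_biUnion, Prod.exists] at hc ⊢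
      exact hc
    refine (Nat.cast_le.2 ((card_le_card hsub).trans card_biUnion_le)).trans ?_
    push_cast
    exact sum_le_sum fun xy _ => hone xy.1 xy.2
  refine hsum.trans ?_
  rw [sum_const, card_univ, Fintype.card_prod, Fintype.card_fun, Fintype.card_fun, ZMod.card,
    nsmul_eq_mul]
  push_cast
  set u := Fintype.card U
  set v := Fintype.card V
  have hQpow : Q ^ (3 * (u + v + 1)) ≤ Q ^ (δ * m) := by
    rw [← Real.rpow_natCast]
    apply Real.rpow_le_rpow_of_exponent_le (by linarith)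
    push_cast
    exact hm
  have hqq : Q ^ (3 * (u + v + 1)) = (q : ℝ) ^ u * (q : ℝ) ^ v * q := by
    rw [pow_mul, hQ3, pow_add, pow_add, pow_one]
  calc (q : ℝ) ^ u * (q : ℝ) ^ v * ((q : ℝ) ^ m * (1 / Q ^ (δ * m)))
      ≤ (q : ℝ) ^ u * (q : ℝ) ^ v * ((q : ℝ) ^ m * (1 / Q ^ (3 * (u + v + 1)))) := by
        gcongr
    _ = (q : ℝ) ^ m * (1 / q) := by
        rw [hqq]
        field_simp
    _ ≤ _ := by
        gcongr
        linarith

end Pool.Agent.T6.H63.SK
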