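import Pool.Agent.T6.H63.SK.Chain
import Pool.Agent.T6.H63.SK.Moment

/-!
A space of flows of large dimension contains many disjoint chains in its support.
-/

set_option autoImplicit false

namespace Pool.Agent.T6.H63.SK

open Finset Module Pool.Agent.T6.H63.LD

section peel

variable {E K α : Type} [Fintype E] [Field K]

/-- functions vanishing on a list -/
def van (K : Type) [Field K] (l : List E) : Submodule K (E → K) where
  carrier := {a | ∀ e ∈ l, a e = 0}
  add_mem' {a b} ha hb := by
    intro e he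
    rw [Pi.add_apply, ha e he, hb e he, add_zero]
  zero_mem' := fun e _ => rfl
  smul_mem' t a ha := by
    intro e he
    rw [Pi.smul_apply, ha e he, smul_zero]

omit [Fintype E] in
theorem mem_van {l : List E} {a : E → K} : a ∈ van K l ↔ ∀ e ∈ l, a e = 0 := Iff.rfl

theorem codim_one (J : Submodule K (E → K)) (e : E) :
    finrank K J ≤ finrank K (J ⊓ van K [e] : Submodule K (E → K)) + 1 := by
  classical
  have h1 := Submodule.finrank_sup_add_finrank_inf_eq J (van K [e])
  have h2 := finrank_orth (Submodule.span K {(Pi.single e (1 : K) : E → K)})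
  have h3 : finrank K (Submodule.span K {(Pi.single e (1 : K) : E → K)}) ≤ 1 :=
    (finrank_span_le_card _).trans (by simp)
  have h4 : orth (Submodule.span K {(Pi.single e (1 : K) : E → K)}) ≤ van K [e] := by
    intro b hb
    have h5 := hb _ (Submodule.mem_span_singleton_self _)
    rw [mem_van]
    intro e' he'
    rw [List.mem_singleton] at he'
    subst he'
    simpa [Pi.single_apply] using h5
  have h5 := Submodule.finrank_mono h4
  have h6 : finrank K (J ⊔ van K [e] : Submodule K (E → K)) ≤ Fintype.card E := by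
    have := Submodule.finrank_le (J ⊔ van K [e] : Submodule K (E → K))
    rwa [finrank_fintype_fun_eq_card] at this
  omega

open Classical in
/-- the support of a space of functions -/
noncomputable def supp (J : Submodule K (E → K)) : Finset E := univ.filter fun e => ∃ a ∈ J, a e ≠ 0

theorem mem_supp {J : Submodule K (E → K)} {e : E} : e ∈ supp J ↔ ∃ a ∈ J, a e ≠ 0 := by
  simp [supp]

theorem supp_mono {J J' : Submodule K (E → K)} (h : J ≤ J') : supp J ⊆ supp J' := by
  intro e he
  obtain ⟨a, ha, hne⟩ := mem_supp.1 he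
  exact mem_supp.2 ⟨a, h ha, hne⟩

variable [DecidableEq E] [DecidableEq α]

/-- the continuations -/
noncomputable def nxt (κ : Bool → E → α) (J : Submodule K (E → K)) (b : Bool) (e : E) : Finset E :=
  (supp J).filter fun e' => κ b e' = κ b e ∧ e' ≠ e

/-- `J` consists of flows -/
def Flw (κ : Bool → E → α) (g : Bool → E → K) (J : Submodule K (E → K)) : Prop :=
  ∀ a ∈ J, ∀ b k, ∑ e ∈ univ.filter (fun e => κ b e = k), g b e * a e = 0

variable {κ : Bool → E → α} {g : Bool → E → K} {J : Submodule K (E → K)}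

theorem nxt_nonempty (hg : ∀ b e, g b e ≠ 0) (hJ : Flw κ g J) (b : Bool) {e : E}
    (he : e ∈ supp J) : (nxt κ J b e).Nonempty := by
  obtain ⟨a, ha, hne⟩ := mem_supp.1 he
  by_contra hcon
  rw [not_nonempty_iff_eq_empty] at hcon
  have h1 := hJ a ha b (κ b e)
  rw [sum_eq_single_of_mem e (by simp)] at h1
  · exact (mul_ne_zero (hg b e) hne) h1
  · intro e' he' hne'
    have h2 : e' ∉ nxt κ J b e := by
      rw [hcon]
      simp
    by_contra h3
    apply h2
    rw [nxt, mem_filter]
    exact ⟨mem_supp.2 ⟨a, ha, right_ne_zero_of_mul h3⟩, (mem_filter.1 he').2, hne'⟩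

theorem nxt_single (hg : ∀ b e, g b e ≠ 0) (hJ : Flw κ g J) {b : Bool} {e e' : E}
    (h1 : (nxt κ J b e).card < 2) (he' : e' ∈ nxt κ J b e) {a : E → K} (ha : a ∈ J)
    (hae : a e = 0) : a e' = 0 := by
  have h2 := hJ a ha b (κ b e)
  have h3 := (mem_filter.1 he').2
  rw [sum_eq_single_of_mem e' (by simp [h3.1])] at h2
  · rcases mul_eq_zero.1 h2 with h4 | h4
    · exact absurd h4 (hg b e')
    · exact h4
  · intro e'' he'' hne
    by_cases h5 : e'' = e
    · rw [h5, hae, mul_zero]
    by_contra h4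
    have h6 : e'' ∈ nxt κ J b e := by
      rw [nxt, mem_filter]
      exact ⟨mem_supp.2 ⟨a, ha, right_ne_zero_of_mul h4⟩, (mem_filter.1 he'').2, h5⟩
    have h7 : 1 < (nxt κ J b e).card := one_lt_card.2 ⟨e', he', e'', h6, hne.symm⟩
    omega

theorem chain_dim (hg : ∀ b e, g b e ≠ 0) (hJ : Flw κ g J) {b : Bool} {e : E} {l : List E}
    (hl : Ch (fun b e e' => e' ∈ nxt κ J b e) b e l) (J1 : Submodule K (E → K)) (hJ1 : J1 ≤ J)
    (h0 : ∀ a ∈ J1, a e = 0) :
    finrank K J1 ≤ finrank K (J1 ⊓ van K (e :: l) : Submodule K (E → K)) +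
      br (nxt κ J) b e l := by
  induction l generalizing b e J1 with
  | nil =>
    have h1 : J1 ≤ J1 ⊓ van K [e] := by
      refine le_inf le_rfl fun a ha => ?_
      rw [mem_van]
      intro e' he'
      rw [List.mem_singleton] at he'
      subst he'
      exact h0 a ha
    exact (Submodule.finrank_mono h1).trans (Nat.le_add_right _ _)
  | cons e' l ih =>
    obtain ⟨h1, h2⟩ := hl
    rw [br]
    by_cases hc : 2 ≤ (nxt κ J b e).card
    · rw [if_pos hc]
      have h3 := codim_one J1 e'
      have h4 := ih h2 (J1 ⊓ van K [e']) (inf_le_left.trans hJ1) (fun a ha => by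
        exact (mem_van.1 ha.2) e' (by simp))
      have h5 : (J1 ⊓ van K [e']) ⊓ van K (e' :: l) ≤ J1 ⊓ van K (e :: e' :: l) := by
        rintro a ⟨⟨h6, h7⟩, h8⟩
        refine ⟨h6, ?_⟩
        change a ∈ van K (e :: e' :: l)
        rw [mem_van]
        intro x hx
        rcases List.mem_cons.1 hx with rfl | hx
        · exact h0 a h6
        · exact (mem_van.1 h8) x hx
      have h6 := Submodule.finrank_mono h5
      omega
    · rw [if_neg hc, zero_add]
      have h4 := ih h2 J1 hJ1 (fun a ha => nxt_single hg hJ (by omega) h1 (hJ1 ha) (h0 a ha))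
      have h5 : J1 ⊓ van K (e' :: l) ≤ J1 ⊓ van K (e :: e' :: l) := by
        rintro a ⟨h6, h8⟩
        refine ⟨h6, ?_⟩
        change a ∈ van K (e :: e' :: l)
        rw [mem_van]
        intro x hx
        rcases List.mem_cons.1 hx with rfl | hx
        · exact h0 a h6
        · exact (mem_van.1 h8) x hx
      have h6 := Submodule.finrank_mono h5
      omega

omit [DecidableEq E] in
theorem supp_nonempty (h : 0 < finrank K J) : (supp J).Nonempty := by
  have hne : J ≠ ⊥ := by
    rintro rfl
    simp at h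
  obtain ⟨a, ha, ha0⟩ := Submodule.exists_mem_ne_zero_of_ne_bot hne
  obtain ⟨e, he⟩ := Function.ne_iff.1 ha0
  exact ⟨e, mem_supp.2 ⟨a, ha, he⟩⟩

omit [Fintype E] [DecidableEq E] [DecidableEq α] in
theorem Ch.mem {S : Finset E} {R : Bool → E → E → Prop} (hR : ∀ b e e', R b e e' → e' ∈ S)
    {b : Bool} {e : E} {l : List E} (h : Ch R b e l) : ∀ x ∈ l, x ∈ S := by
  induction l generalizing b e with
  | nil => simp
  | cons e' l ih =>
    obtain ⟨h1, h2⟩ := h
    intro x hx
    rcases List.mem_cons.1 hx with rfl | hx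
    · exact hR _ _ _ h1
    · exact ih h2 x hx

/-- One chain. -/
theorem peel (hg : ∀ b e, g b e ≠ 0) (hJ : Flw κ g J) (n M : ℕ)
    (hM : ∀ e ∈ supp J, (Wk (nxt κ J) n true e).card ≤ M) (hpos : 0 < finrank K J) :
    ∃ (e : E) (l : List E), l.length = n ∧
      Ch (fun b e e' => e ≠ e' ∧ κ b e = κ b e') true e l ∧ (∀ x ∈ e :: l, x ∈ supp J) ∧
      finrank K J ≤ finrank K (J ⊓ van K (e :: l) : Submodule K (E → K)) + (Nat.log 2 M + 1) := by
  obtain ⟨e, he⟩ := supp_nonempty hpos
  obtain ⟨l, hl, hbr⟩ := few (nxt κ J) (supp J) (fun b e he => nxt_nonempty hg hJ b he)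
    (fun b e _ => filter_subset _ _) n true he
  obtain ⟨h1, h2⟩ := mem_Wk hl
  have hM1 : 2 ^ br (nxt κ J) true e l ≤ M := hbr.trans (hM e he)
  have hbrM : br (nxt κ J) true e l ≤ Nat.log 2 M :=
    Nat.le_log_of_pow_le (by norm_num) hM1
  refine ⟨e, l, h1, ?_, ?_, ?_⟩
  · refine Ch.mono ?_ h2
    intro b x y hxy
    have := (mem_filter.1 hxy).2
    exact ⟨this.2.symm, this.1.symm⟩
  · intro x hx
    rcases List.mem_cons.1 hx with rfl | hx
    · exact he
    · exact Ch.mem (fun b e e' h => (mem_filter.1 h).1) h2 x hx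
  · have h3 := codim_one J e
    have h4 := chain_dim hg hJ h2 (J ⊓ van K [e]) inf_le_left (fun a ha => by
      exact (mem_van.1 ha.2) e (by simp))
    have h5 : (J ⊓ van K [e]) ⊓ van K (e :: l) ≤ J ⊓ van K (e :: l) :=
      inf_le_inf_right _ inf_le_left
    have h6 := Submodule.finrank_mono h5
    omega

/-- Many disjoint chains. -/
theorem many (hg : ∀ b e, g b e ≠ 0) (n M : ℕ) (S : Finset E)
    (hM : ∀ J : Submodule K (E → K), supp J ⊆ S → ∀ e ∈ supp J,
      (Wk (nxt κ J) n true e).card ≤ M) (k : ℕ) (J : Submodule K (E → K)) (hJ : Flw κ g J)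
    (hS : supp J ⊆ S)
    (hk : k * (Nat.log 2 M + 1) < finrank K J + (Nat.log 2 M + 1)) :
    ∃ L : Fin k → E × List E, (∀ j, (L j).2.length = n ∧
      Ch (fun b e e' => e ≠ e' ∧ κ b e = κ b e') true (L j).1 (L j).2 ∧
      ∀ x ∈ (L j).1 :: (L j).2, x ∈ supp J) ∧
      ∀ i j, i ≠ j → ∀ x ∈ (L i).1 :: (L i).2, x ∉ (L j).1 :: (L j).2 := by
  induction k generalizing J with
  | zero => exact ⟨Fin.elim0, fun j => j.elim0, fun i => i.elim0⟩
  | succ k ih =>
    have hk' : k * (Nat.log 2 M + 1) < finrank K J := by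
      rw [Nat.succ_mul] at hk
      omega
    obtain ⟨e, l, h1, h2, h3, h4⟩ := peel hg hJ n M (hM J hS) (by omega)
    obtain ⟨L, hL, hd⟩ := ih (J ⊓ van K (e :: l)) (fun a ha => hJ a ha.1)
      ((supp_mono inf_le_left).trans hS) (by omega)
    have hdis : ∀ j, ∀ x ∈ e :: l, x ∉ (L j).1 :: (L j).2 := by
      intro j x hx hx'
      obtain ⟨a, ha, hne⟩ := mem_supp.1 ((hL j).2.2 x hx')
      exact hne ((mem_van.1 ha.2) x hx)
    refine ⟨Fin.cons (e, l) L, ?_, ?_⟩
    · intro j
      refine Fin.cases ?_ (fun j => ?_) j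
      · simp only [Fin.cons_zero]
        exact ⟨h1, h2, h3⟩
      · simp only [Fin.cons_succ]
        exact ⟨(hL j).1, (hL j).2.1, fun x hx => supp_mono inf_le_left ((hL j).2.2 x hx)⟩
    · intro i
      refine Fin.cases ?_ (fun i => ?_) i
      · intro j
        refine Fin.cases ?_ (fun j => ?_) j
        · intro h
          exact absurd rfl h
        · intro _
          simp only [Fin.cons_zero, Fin.cons_succ]
          exact hdis j
      · intro j
        refine Fin.cases ?_ (fun j => ?_) j
        · intro _ x hx hx'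
          simp only [Fin.cons_zero, Fin.cons_succ] at hx hx'
          exact hdis i x hx' hx
        · intro h
          simp only [Fin.cons_succ]
          exact hd i j (fun h' => h (by rw [h']))

end peel

end Pool.Agent.T6.H63.SK
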