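import Pool.Agent.T6.H63.SK.Light

/-!
The planted distribution of the square games, and the mean number of the forms that see two of its
components.
-/

set_option autoImplicit false

namespace Pool.Agent.T6.H63.SK

open Finset Module Pool.Agent.T6.H63.LD

section plant

variable {U V E : Type} {q : ℕ} [Fact q.Prime]

/-- sign -/
def sg (q : ℕ) (b : Bool) : ZMod q := if b then 1 else -1

theorem sg_ne (b : Bool) : sg q b ≠ 0 := by
  have : Nontrivial (ZMod q) := ZMod.nontrivial_iff.2 (Fact.out : q.Prime).one_lt.ne'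
  cases b <;> simp [sg]

theorem sg_sq (b : Bool) : sg q b * sg q b = 1 := by
  cases b <;> simp [sg]

/-- shifts of a satisfied instance, for given signs -/
def Phi2 (s : E → U) (d : E → V) (q : ℕ) (ε : E → Bool) :
    ((U → ZMod q) × (V → ZMod q)) →ₗ[ZMod q] (E → ZMod q) where
  toFun p e := sg q (ε e) * p.2 (d e) - p.1 (s e)
  map_add' p p' := by
    ext e
    simp only [Prod.snd_add, Prod.fst_add, Pi.add_apply]
    ring
  map_smul' c p := by
    ext e
    simp only [Prod.smul_snd, Prod.smul_fst, Pi.smul_apply, smul_eq_mul, RingHom.id_apply]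
    ring

theorem Phi2_apply (s : E → U) (d : E → V) (ε : E → Bool)
    (p : (U → ZMod q) × (V → ZMod q)) (e : E) :
    Phi2 s d q ε p e = sg q (ε e) * p.2 (d e) - p.1 (s e) := rfl

variable [Fintype E] {s : E → U} {d : E → V}

open Classical in
/-- coloured flows -/
def Cf (s : E → U) (d : E → V) (ε σ : E → Bool) (b : E → ZMod q) : Prop :=
  (∀ u, ∑ e ∈ univ.filter (fun e => s e = u), b e = 0) ∧
    ∀ v i, ∑ e ∈ univ.filter (fun e => d e = v ∧ σ e = i), sg q (ε e) * b e = 0

open Classical in
theorem orth_U {ε : E → Bool} {b : E → ZMod q} (h : ∀ p, ∑ e, b e * Phi2 s d q ε p e = 0) (u : U) :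
    ∑ e ∈ univ.filter (fun e => s e = u), b e = 0 := by
  have := h (Pi.single u 1, 0)
  have e1 : ∑ e, b e * Phi2 s d q ε (Pi.single u 1, 0) e =
      - ∑ e ∈ univ.filter (fun e => s e = u), b e := by
    rw [sum_filter, ← sum_neg_distrib]
    refine sum_congr rfl fun e _ => ?_
    simp only [Phi2_apply, Pi.zero_apply, mul_zero, zero_sub, Pi.single_apply]
    split_ifs <;> simp
  rw [e1] at this
  exact neg_eq_zero.1 this

open Classical in
theorem orth_V {ε : E → Bool} {b : E → ZMod q} (h : ∀ p, ∑ e, b e * Phi2 s d q ε p e = 0) (v : V) :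
    ∑ e ∈ univ.filter (fun e => d e = v), sg q (ε e) * b e = 0 := by
  have := h (0, Pi.single v 1)
  have e1 : ∑ e, b e * Phi2 s d q ε (0, Pi.single v 1) e =
      ∑ e ∈ univ.filter (fun e => d e = v), sg q (ε e) * b e := by
    rw [sum_filter]
    refine sum_congr rfl fun e _ => ?_
    simp only [Phi2_apply, Pi.zero_apply, sub_zero, Pi.single_apply]
    split_ifs
    · ring
    · simp
  rw [e1] at this
  exact this

theorem cf_of_orth (hq2 : q ≠ 2) {ε ε' : E → Bool} {b : E → ZMod q}
    (h : ∀ p, ∑ e, b e * Phi2 s d q ε p e = 0) (h' : ∀ p, ∑ e, b e * Phi2 s d q ε' p e = 0) :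
    Cf s d ε (fun e => ε e == ε' e) b := by
  classical
  refine ⟨orth_U h, fun v i => ?_⟩
  have h1 := orth_V h v
  have h2 := orth_V h' v
  have h2ne : (2 : ZMod q) ≠ 0 := by
    intro h0
    have h3 : ((2 : ℕ) : ZMod q) = 0 := by exact_mod_cast h0
    rw [ZMod.natCast_eq_zero_iff] at h3
    have h4 := (Nat.prime_dvd_prime_iff_eq (Fact.out : q.Prime) Nat.prime_two).1 h3
    exact hq2 h4
  have key : (2 : ZMod q) * ∑ e ∈ univ.filter (fun e => d e = v ∧ (ε e == ε' e) = i),
      sg q (ε e) * b e = ∑ e ∈ univ.filter (fun e => d e = v), sg q (ε e) * b e +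
        (if i then 1 else -1) * ∑ e ∈ univ.filter (fun e => d e = v), sg q (ε' e) * b e := by
    rw [sum_filter, sum_filter, sum_filter, mul_sum, mul_sum, ← sum_add_distrib]
    refine sum_congr rfl fun e _ => ?_
    by_cases hv : d e = v
    · cases i <;> cases hε : ε e <;> cases hε' : ε' e <;> simp [hv, sg] <;> ring
    · simp [hv]
  rw [h1, h2, mul_zero, add_zero] at key
  exact (mul_eq_zero.1 key).resolve_left h2ne

open Classical in
/-- touched vertices -/
noncomputable def tv (d : E → V) (b : E → ZMod q) : Finset V := (univ.filter fun e => b e ≠ 0).image d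

variable [DecidableEq E]

open Classical in
theorem heavy_card (ε : E → Bool) (b : E → ZMod q) :
    (univ.filter fun σ : E → Bool => Cf s d ε σ b).card * 2 ^ (tv d b).card ≤
      2 ^ Fintype.card E := by
  rcases isEmpty_or_nonempty E with hE | hE
  · have h0 : tv d b = ∅ := by simp [tv, univ_eq_empty]
    rw [h0, card_empty, pow_zero, mul_one]
    exact (card_le_univ _).trans_eq (by simp)
  have hch : ∀ v ∈ tv d b, ∃ e, b e ≠ 0 ∧ d e = v := by
    intro v hv
    obtain ⟨e, he, rfl⟩ := mem_image.1 hv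
    exact ⟨e, (mem_filter.1 he).2, rfl⟩
  choose! r hr1 hr2 using hch
  have hP : ((tv d b).image r).card = (tv d b).card := by
    apply card_image_of_injOn
    intro v hv v' hv' h
    rw [← hr2 v hv, ← hr2 v' hv']
    exact congrArg d h
  rw [← hP]
  apply inj_card
  intro σ hσ σ' hσ' hag
  rw [mem_filter] at hσ hσ'
  ext e
  by_cases he : e ∈ (tv d b).image r
  · obtain ⟨v, hv, rfl⟩ := mem_image.1 he
    by_contra hne
    have h1 := hσ.2.2 v (σ (r v))
    have h2 := hσ'.2.2 v (σ (r v))
    have h3 : univ.filter (fun e => d e = v ∧ σ e = σ (r v)) =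
        insert (r v) (univ.filter (fun e => d e = v ∧ σ' e = σ (r v))) := by
      ext e
      rw [mem_insert, mem_filter, mem_filter]
      by_cases her : e = r v
      · subst her
        simp [hr2 v hv]
      · have h4 : d e = v → σ e = σ' e := by
          intro hde
          apply hag
          intro hmem
          obtain ⟨v', hv', rfl⟩ := mem_image.1 hmem
          apply her
          rw [hr2 v' hv'] at hde
          rw [hde]
        constructor
        · rintro ⟨-, h5, h6⟩
          exact Or.inr ⟨mem_univ _, h5, by rw [← h4 h5]; exact h6⟩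
        · rintro (h5 | ⟨-, h5, h6⟩)
          · exact absurd h5 her
          · exact ⟨mem_univ _, h5, by rw [h4 h5]; exact h6⟩
    rw [h3, sum_insert (by
      rw [mem_filter]
      rintro ⟨-, -, h5⟩
      exact hne h5.symm), h2, add_zero] at h1
    exact (mul_ne_zero (sg_ne _) (hr1 v hv)) h1
  · rw [hag e he]

omit [DecidableEq E] in
open Classical in
/-- The light elements of a space of small dimension touch few vertices altogether. -/
theorem exists_V0 (T W : ℕ) (a : Fin T → E → ZMod q) : ∃ V0 : Finset V, V0.card ≤ T * W ∧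
    ∀ x ∈ Submodule.span (ZMod q) (Set.range a), (tv d x).card ≤ W →
      ∀ e, d e ∉ V0 → x e = 0 := by
  set Low : Set (E → ZMod q) := {b | b ∈ Submodule.span (ZMod q) (Set.range a) ∧
    (tv d b).card ≤ W} with hLow
  obtain ⟨b, hbL, hbs, hbi⟩ := exists_linearIndependent (ZMod q) Low
  have hbfin : b.Finite := Set.toFinite b
  have hbcard : hbfin.toFinset.card ≤ T := by
    have h1 : LinearIndependent (ZMod q) (fun x : b => (⟨(x : E → ZMod q), (hbL x.2).1⟩ :
        Submodule.span (ZMod q) (Set.range a))) := by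
      apply LinearIndependent.of_comp (Submodule.span (ZMod q) (Set.range a)).subtype
      exact hbi
    have := Fintype.ofFinite b
    have h2 := h1.fintype_card_le_finrank
    have h3 : Module.finrank (ZMod q) (Submodule.span (ZMod q) (Set.range a)) ≤ T := by
      have := finrank_range_le_card (R := ZMod q) a
      rwa [Fintype.card_fin] at this
    rw [← Nat.card_eq_fintype_card] at h2
    rw [← Set.ncard_eq_toFinset_card b hbfin, ← Nat.card_coe_set_eq]
    omega
  refine ⟨hbfin.toFinset.biUnion fun b => tv d b, ?_, ?_⟩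
  · refine (card_biUnion_le_card_mul _ _ W ?_).trans (Nat.mul_le_mul_right _ hbcard)
    intro x hx
    exact (hbL (hbfin.mem_toFinset.1 hx)).2
  · intro x hx hxW e he
    have hx1 : x ∈ Submodule.span (ZMod q) b := by
      rw [hbs]
      exact Submodule.subset_span ⟨hx, hxW⟩
    have hle : Submodule.span (ZMod q) b ≤ LinearMap.ker (LinearMap.proj (R := ZMod q)
        (φ := fun _ : E => ZMod q) e) := by
      rw [Submodule.span_le]
      intro y hy
      simp only [SetLike.mem_coe, LinearMap.mem_ker, LinearMap.proj_apply]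
      by_contra hye
      apply he
      rw [mem_biUnion]
      exact ⟨y, hbfin.mem_toFinset.2 hy, mem_image_of_mem _ (by simpa using hye)⟩
    exact hle hx1

open Classical in
theorem wit_sum (hinj : ∀ e e', s e = s e' → d e = d e' → e = e') (t : ℕ)
    (hg : ((2 * (2 * t + 2) : ℕ) : ℕ∞) < (gr s d Set.univ).egirth) (hq2 : q ≠ 2) (T W : ℕ)
    (hx : 16 * ((q : ℝ) ^ (Nat.log 2 (T * W) + 1) * ((T * W : ℕ) : ℝ) ^ 2) ≤ 2 ^ t)
    (a : Fin T → E → ZMod q) (ε : E → Bool) :
    ∑ ε' : E → Bool, (Nat.card (wit (Phi2 s d q) a ε ε') : ℝ) ≤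
      2 ^ Fintype.card E * (16 / 15 + (q : ℝ) ^ T / 2 ^ W) := by
  obtain ⟨V0, hV0, hlow⟩ := exists_V0 (d := d) T W a
  have hq1 : (1 : ℝ) ≤ q := by exact_mod_cast (Fact.out : q.Prime).one_lt.le
  set n := Fintype.card E with hn
  -- one colouring
  set H : (E → Bool) → Finset (E → ZMod q) := fun σ => univ.filter fun b =>
    (b ∈ Submodule.span (ZMod q) (Set.range a) ∧ W ≤ (tv d b).card) ∧ Cf s d ε σ b with hH
  have hone : ∀ ε' : E → Bool, (Nat.card (wit (Phi2 s d q) a ε ε') : ℝ) ≤
      (q : ℝ) ^ finrank (ZMod q) (JV s d (fun e => sg q (ε e)) V0 (fun e => ε e == ε' e)) +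
        (H (fun e => ε e == ε' e)).card := by
    intro ε'
    set J := JV s d (fun e => sg q (ε e)) V0 (fun e => ε e == ε' e) with hJ
    have h1 : (Nat.card J : ℝ) = (q : ℝ) ^ finrank (ZMod q) J := by
      rw [Module.natCard_eq_pow_finrank (K := ZMod q) (V := J), Nat.card_zmod]
      push_cast
      rfl
    have h2 : Nat.card (wit (Phi2 s d q) a ε ε') =
        (univ.filter fun b => b ∈ wit (Phi2 s d q) a ε ε').card := by
      rw [Nat.card_eq_fintype_card, Fintype.card_subtype]
    have h3 : Nat.card J = (univ.filter fun b => b ∈ J).card := by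
      rw [Nat.card_eq_fintype_card, Fintype.card_subtype]
    rw [← h1, h2, h3]
    norm_cast
    refine (card_le_card ?_).trans (card_union_le _ _)
    intro b hb
    obtain ⟨h4, h5, h6⟩ := mem_wit _ _ _ _ (mem_filter.1 hb).2
    have h7 := cf_of_orth hq2 h5 h6
    rw [mem_union]
    by_cases hW : W ≤ (tv d b).card
    · right
      rw [hH]
      simp only [mem_filter, mem_univ, true_and]
      exact ⟨⟨h4, hW⟩, h7⟩
    · left
      rw [mem_filter]
      exact ⟨mem_univ _, h7.1, h7.2, hlow b h4 (by omega)⟩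
  have hre : ∀ F : (E → Bool) → ℝ, ∑ ε' : E → Bool, F (fun e => ε e == ε' e) = ∑ σ, F σ := by
    intro F
    have hinv : Function.Involutive fun (ε' : E → Bool) (e : E) => (ε e == ε' e) := by
      intro x
      funext e
      change (ε e == (ε e == x e)) = x e
      cases ε e <;> cases x e <;> rfl
    exact Equiv.sum_comp (Function.Involutive.toPerm _ hinv) F
  have hlight : ∑ σ : E → Bool, (q : ℝ) ^ finrank (ZMod q)
      (JV s d (fun e => sg q (ε e)) V0 σ) ≤ 2 ^ n * (16 / 15) := by
    refine light hinj t hg (fun e => sg_ne _) V0 q hq1 (le_trans ?_ hx)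
    have h1 : (q : ℝ) ^ (Nat.log 2 V0.card + 1) ≤ (q : ℝ) ^ (Nat.log 2 (T * W) + 1) :=
      pow_le_pow_right₀ hq1 (Nat.succ_le_succ (Nat.log_mono_right hV0))
    have h2 : (V0.card : ℝ) ≤ ((T * W : ℕ) : ℝ) := by exact_mod_cast hV0
    gcongr
  have hheavy : ∑ σ : E → Bool, ((H σ).card : ℝ) ≤ 2 ^ n * ((q : ℝ) ^ T / 2 ^ W) := by
    set A := univ.filter fun b : E → ZMod q =>
      b ∈ Submodule.span (ZMod q) (Set.range a) ∧ W ≤ (tv d b).card with hA
    have h1 : ∀ σ, ((H σ).card : ℝ) = ∑ b ∈ A, if Cf s d ε σ b then (1 : ℝ) else 0 := by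
      intro σ
      rw [Finset.sum_boole, hH, hA, filter_filter]
    simp only [h1]
    rw [sum_comm]
    have hAc : (A.card : ℝ) ≤ (q : ℝ) ^ T := by
      have h2 : A.card ≤ Nat.card (Submodule.span (ZMod q) (Set.range a)) := by
        rw [Nat.card_eq_fintype_card, Fintype.card_subtype]
        exact card_le_card fun b hb => by
          rw [mem_filter] at hb ⊢
          exact ⟨mem_univ _, hb.2.1⟩
      rw [Module.natCard_eq_pow_finrank (K := ZMod q), Nat.card_zmod] at h2
      have h3 : Module.finrank (ZMod q) (Submodule.span (ZMod q) (Set.range a)) ≤ T := by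
        have := finrank_range_le_card (R := ZMod q) a
        rwa [Fintype.card_fin] at this
      have h4 : A.card ≤ q ^ T :=
        h2.trans (Nat.pow_le_pow_right (Fact.out : q.Prime).pos h3)
      exact_mod_cast h4
    have h2 : ∀ b ∈ A, ∑ σ : E → Bool, (if Cf s d ε σ b then (1 : ℝ) else 0) ≤ 2 ^ n / 2 ^ W := by
      intro b hb
      rw [Finset.sum_boole, le_div_iff₀ (by positivity)]
      have h3 := heavy_card (s := s) (d := d) ε b
      have h4 : 2 ^ W ≤ 2 ^ (tv d b).card :=
        Nat.pow_le_pow_right (by norm_num) (mem_filter.1 hb).2.2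
      have h5 := (Nat.mul_le_mul_left _ h4).trans h3
      exact_mod_cast h5
    calc ∑ b ∈ A, ∑ σ : E → Bool, (if Cf s d ε σ b then (1 : ℝ) else 0)
        ≤ ∑ _b ∈ A, (2 : ℝ) ^ n / 2 ^ W := sum_le_sum h2
      _ = A.card * (2 ^ n / 2 ^ W) := by rw [sum_const, nsmul_eq_mul]
      _ ≤ (q : ℝ) ^ T * (2 ^ n / 2 ^ W) := by gcongr
      _ = _ := by ring
  calc ∑ ε' : E → Bool, (Nat.card (wit (Phi2 s d q) a ε ε') : ℝ)
      ≤ ∑ ε' : E → Bool, ((q : ℝ) ^ finrank (ZMod q)
        (JV s d (fun e => sg q (ε e)) V0 (fun e => ε e == ε' e)) +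
        (H (fun e => ε e == ε' e)).card) := sum_le_sum fun ε' _ => hone ε'
    _ = ∑ σ : E → Bool, ((q : ℝ) ^ finrank (ZMod q) (JV s d (fun e => sg q (ε e)) V0 σ) +
        (H σ).card) := hre (fun σ => (q : ℝ) ^ finrank (ZMod q)
          (JV s d (fun e => sg q (ε e)) V0 σ) + (H σ).card)
    _ ≤ _ := by
        rw [sum_add_distrib, mul_add]
        exact add_le_add hlight hheavy

end plant

end Pool.Agent.T6.H63.SK
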